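import Pool.Agent.H16.Simp4.Main

/-!
# Auxiliary statements for dimension three
-/

open MeasureTheory Measure Metric Filter Topology
open scoped RealInnerProductSpace

namespace Pool.Agent.H16.Simp

variable {d : ℕ}

theorem Good.gdiff {C ε : ℝ} {f g : E d → ℝ} {l V t : ℝ} (h : Good d C ε f g l V) (ht : 0 < t)
    (p : E d) (gd_int : Integrable (fun z => (fb g l p z - g z.2) ^ 2) (muRE d))
    (h3 : ∫ z, (fb g l p z - g z.2) ^ 2 ∂(muRE d) ≤ t ^ 2 * V) :
    Integrable (fun z => f z.2 * |fb g l p z - g z.2|) (muRE d) ∧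
    ∫ z, f z.2 * |fb g l p z - g z.2| ∂(muRE d) ≤ t * V := by
  have hfm : Measurable (fun z : Rot d × E d => f z.2) := h.f_meas.comp measurable_snd
  have hgm : Measurable (fun z : Rot d × E d => g z.2) := h.g_meas.comp measurable_snd
  have hgbm := fb_meas h.g_meas l p
  constructor
  · refine dom_int (G := fun z => f z.2) (hfm.mul (hgbm.sub hgm).abs) (snd_int h.f_int) ?_
    intro z
    rw [abs_mul, abs_of_nonneg (h.f_nonneg _), abs_abs]
    refine mul_le_of_le_one_right (h.f_nonneg _) ?_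
    show |g (z.2 + l • act z.1 p) - g z.2| ≤ 1
    rw [abs_le]
    have a1 := h.g_nonneg (z.2 + l • act z.1 p)
    have a2 := h.g_le_one (z.2 + l • act z.1 p)
    have a3 := h.g_nonneg z.2
    have a4 := h.g_le_one z.2
    constructor <;> linarith
  · refine le_trans (le_abs_self _) ?_
    apply cs ht
    · have := h.ff_int 0 0
      simpa [sq, fb_zero] using this
    · simpa [sq_abs] using gd_int
    · have := h.ff_le 0
      simpa [sq, fb_zero] using this
    · simpa [sq_abs] using h3

/-- Shift of a product. -/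
theorem shift_to (f : E d → ℝ) (l : ℝ) (p q : E d) (z : Rot d × E d) :
    fb f l q (z.1, z.2 + l • act z.1 (-p)) = fb f l (q - p) z := by
  unfold fb
  congr 1
  show z.2 + l • act z.1 (-p) + l • act z.1 q = z.2 + l • act z.1 (q - p)
  rw [act_neg, smul_neg, act_sub, smul_sub]
  abel

/-- Two points and two weights. -/
theorem ev_two (hd : 2 ≤ d) {p q : E d} (hpq : p ≠ q) (a b : E d) (t : ℝ) (ht : 0 < t) :
    Ev d (fun f g l V => |∫ z, (fb f l p z * fb f l q z) * (fb g l a z * fb g l b z) ∂(muRE d) -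
      ∫ x, g x ^ 4| ≤ t * V) := by
  have hq : q - p ≠ 0 := sub_ne_zero.2 hpq.symm
  have h1 := corek hd 1 2 (by omega) (fun _ => q - p) (by
    intro i hi
    have : ((fun _ : ℕ => q - p) '' {j | j < i}) = ∅ := by
      have : {j | j < i} = (∅ : Set ℕ) := by
        ext j
        simp only [Set.mem_ofPred_eq, Set.mem_empty_iff_false, iff_false]
        omega
      rw [this, Set.image_empty]
    rw [this, Submodule.span_empty, Submodule.mem_bot]
    exact hq) (t / 2) (by positivity)
  refine ((h1.and (ev_smooth (a - p) ((t / 4) ^ 2) (by positivity))).and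
    (ev_smooth (b - p) ((t / 4) ^ 2) (by positivity))).mono ?_
  intro f g l V C ε h ⟨⟨h2, gai, ga⟩, gbi, gb⟩
  obtain ⟨ia, sa⟩ := h.gdiff (t := t / 4) (by positivity) _ gai ga
  obtain ⟨ib, sb⟩ := h.gdiff (t := t / 4) (by positivity) _ gbi gb
  have hV := h.V_pos
  have hfm : Measurable (fun z : Rot d × E d => f z.2) := h.f_meas.comp measurable_snd
  have hgm : Measurable (fun z : Rot d × E d => g z.2) := h.g_meas.comp measurable_snd
  have ham := fb_meas h.g_meas l (a - p)
  have hbm := fb_meas h.g_meas l (b - p)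
  have hqm := fb_meas h.f_meas l (q - p)
  have e1 : ∫ z, (fb f l p z * fb f l q z) * (fb g l a z * fb g l b z) ∂(muRE d) =
      ∫ z, (f z.2 * fb f l (q - p) z) * (fb g l (a - p) z * fb g l (b - p) z) ∂(muRE d) := by
    rw [← integral_shift l (-p) (fun z => (fb f l p z * fb f l q z) *
      (fb g l a z * fb g l b z)) (((fb_meas h.f_meas l p).mul (fb_meas h.f_meas l q)).mul
        ((fb_meas h.g_meas l a).mul (fb_meas h.g_meas l b)))]
    refine integral_congr_ae (Eventually.of_forall fun z => ?_)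
    simp only [shift_to, sub_self, fb_zero]
  have e2 : ∫ z, f z.2 * (∏ i ∈ Finset.range 1, fb f l ((fun _ : ℕ => q - p) i) z) *
      g z.2 ^ 2 ∂(muRE d) = ∫ z, (f z.2 * fb f l (q - p) z) * g z.2 ^ 2 ∂(muRE d) := by
    simp
  rw [e2] at h2
  have e3 : 1 + 1 + 2 = 4 := rfl
  rw [e3] at h2
  have F0 : ∀ z : Rot d × E d, 0 ≤ f z.2 * fb f l (q - p) z := fun z =>
    mul_nonneg (h.f_nonneg _) (h.f0 _ _)
  have F1 : ∀ z : Rot d × E d, f z.2 * fb f l (q - p) z ≤ f z.2 := fun z =>
    mul_le_of_le_one_right (h.f_nonneg _) (h.f1 _ _)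
  have i1 : Integrable (fun z => (f z.2 * fb f l (q - p) z) *
      (fb g l (a - p) z * fb g l (b - p) z)) (muRE d) := by
    refine dom_int (G := fun z => f z.2) ((hfm.mul hqm).mul (ham.mul hbm))
      (snd_int h.f_int) ?_
    intro z
    have a1 := h.g0 (a - p) z
    have a2 := h.g0 (b - p) z
    rw [abs_of_nonneg (mul_nonneg (F0 z) (mul_nonneg a1 a2))]
    refine le_trans (mul_le_of_le_one_right (F0 z) ?_) (F1 z)
    exact mul_le_one₀ (h.g1 _ _) a2 (h.g1 _ _)
  have i2 : Integrable (fun z => (f z.2 * fb f l (q - p) z) * g z.2 ^ 2) (muRE d) := by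
    refine dom_int (G := fun z => f z.2) ((hfm.mul hqm).mul (hgm.pow_const 2))
      (snd_int h.f_int) ?_
    intro z
    rw [abs_of_nonneg (mul_nonneg (F0 z) (sq_nonneg _))]
    refine le_trans (mul_le_of_le_one_right (F0 z) ?_) (F1 z)
    exact pow_le_one₀ (h.g_nonneg _) (h.g_le_one _)
  have s3 : |∫ z, (f z.2 * fb f l (q - p) z) * (fb g l (a - p) z * fb g l (b - p) z) ∂(muRE d) -
      ∫ z, (f z.2 * fb f l (q - p) z) * g z.2 ^ 2 ∂(muRE d)| ≤ 2 * ((t / 4) * V) := by
    rw [← integral_sub i1 i2]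
    calc |∫ z, ((f z.2 * fb f l (q - p) z) * (fb g l (a - p) z * fb g l (b - p) z) -
          (f z.2 * fb f l (q - p) z) * g z.2 ^ 2) ∂(muRE d)| ≤
        ∫ z, |(f z.2 * fb f l (q - p) z) * (fb g l (a - p) z * fb g l (b - p) z) -
          (f z.2 * fb f l (q - p) z) * g z.2 ^ 2| ∂(muRE d) := abs_integral_le_integral_abs
      _ ≤ ∫ z, (f z.2 * |fb g l (a - p) z - g z.2| +
            f z.2 * |fb g l (b - p) z - g z.2|) ∂(muRE d) := by
          apply integral_mono_of_nonneg
          · exact Eventually.of_forall fun z => abs_nonneg _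
          · exact ia.add ib
          · refine Eventually.of_forall fun z => ?_
            show |(f z.2 * fb f l (q - p) z) * (fb g l (a - p) z * fb g l (b - p) z) -
              (f z.2 * fb f l (q - p) z) * g z.2 ^ 2| ≤ _
            have b1 : |fb g l (a - p) z * fb g l (b - p) z - g z.2 ^ 2| ≤
                |fb g l (a - p) z - g z.2| + |fb g l (b - p) z - g z.2| := by
              have e4 : fb g l (a - p) z * fb g l (b - p) z - g z.2 ^ 2 =
                  (fb g l (a - p) z - g z.2) * fb g l (b - p) z +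
                  g z.2 * (fb g l (b - p) z - g z.2) := by ring
              rw [e4]
              refine (abs_add_le _ _).trans ?_
              rw [abs_mul, abs_mul, abs_of_nonneg (h.g0 (b - p) z),
                abs_of_nonneg (h.g_nonneg z.2)]
              refine add_le_add ?_ ?_
              · exact mul_le_of_le_one_right (abs_nonneg _) (h.g1 _ _)
              · exact mul_le_of_le_one_left (abs_nonneg _) (h.g_le_one _)
            rw [← mul_sub, abs_mul, abs_of_nonneg (F0 z)]
            show f z.2 * fb f l (q - p) z * |fb g l (a - p) z * fb g l (b - p) z - g z.2 ^ 2| ≤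
              f z.2 * |fb g l (a - p) z - g z.2| + f z.2 * |fb g l (b - p) z - g z.2|
            rw [← mul_add]
            exact mul_le_mul (F1 z) b1 (abs_nonneg _) (h.f_nonneg _)
      _ = (∫ z, f z.2 * |fb g l (a - p) z - g z.2| ∂(muRE d)) +
          ∫ z, f z.2 * |fb g l (b - p) z - g z.2| ∂(muRE d) := integral_add ia ib
      _ ≤ 2 * ((t / 4) * V) := by linarith
  rw [e1]
  rw [abs_le] at h2 s3 ⊢
  constructor
  · linarith [h2.1, s3.1]
  · linarith [h2.2, s3.2]

/-- Three points and one weight. -/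
theorem ev_three (hd : 3 ≤ d) {p q r : E d} (hpq : LinearIndependent ℝ ![q - p, r - p])
    (a : E d) (t : ℝ) (ht : 0 < t) :
    Ev d (fun f g l V => |∫ z, (fb f l p z * fb f l q z) * (fb f l r z * fb g l a z) ∂(muRE d) -
      ∫ x, g x ^ 4| ≤ t * V) := by
  rw [LinearIndependent.pair_iff] at hpq
  have hq : q - p ≠ 0 := by
    intro h0
    have := (hpq 1 0 (by rw [h0]; simp)).1
    exact one_ne_zero this
  have hr : r - p ∉ Submodule.span ℝ {q - p} := by
    intro h0
    obtain ⟨c, hc⟩ := Submodule.mem_span_singleton.1 h0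
    have := (hpq c (-1) (by rw [hc]; simp)).2
    norm_num at this
  set v : ℕ → E d := fun i => if i = 0 then q - p else r - p with hv
  have h1 := corek (by omega) 2 1 (by omega) v (by
    intro i hi
    interval_cases i
    · have : (v '' {j | j < 0}) = ∅ := by
        have : {j | j < 0} = (∅ : Set ℕ) := by
          ext j
          simp only [Set.mem_ofPred_eq, Set.mem_empty_iff_false, iff_false]
          omega
        rw [this, Set.image_empty]
      rw [this, Submodule.span_empty, Submodule.mem_bot]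
      exact hq
    · have : (v '' {j | j < 1}) = {q - p} := by
        have : {j | j < 1} = ({0} : Set ℕ) := by
          ext j
          simp only [Set.mem_ofPred_eq, Set.mem_singleton_iff]
          omega
        rw [this, Set.image_singleton]
        simp [hv]
      rw [this]
      exact hr) (t / 2) (by positivity)
  refine (h1.and (ev_smooth (a - p) ((t / 2) ^ 2) (by positivity))).mono ?_
  intro f g l V C ε h ⟨h2, gai, ga⟩
  obtain ⟨ia, sa⟩ := h.gdiff (t := t / 2) (by positivity) _ gai ga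
  have hV := h.V_pos
  have hfm : Measurable (fun z : Rot d × E d => f z.2) := h.f_meas.comp measurable_snd
  have hgm : Measurable (fun z : Rot d × E d => g z.2) := h.g_meas.comp measurable_snd
  have ham := fb_meas h.g_meas l (a - p)
  have hqm := fb_meas h.f_meas l (q - p)
  have hrm := fb_meas h.f_meas l (r - p)
  have e1 : ∫ z, (fb f l p z * fb f l q z) * (fb f l r z * fb g l a z) ∂(muRE d) =
      ∫ z, (f z.2 * fb f l (q - p) z * fb f l (r - p) z) * fb g l (a - p) z ∂(muRE d) := by
    rw [← integral_shift l (-p) (fun z => (fb f l p z * fb f l q z) *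
      (fb f l r z * fb g l a z)) (((fb_meas h.f_meas l p).mul (fb_meas h.f_meas l q)).mul
        ((fb_meas h.f_meas l r).mul (fb_meas h.g_meas l a)))]
    refine integral_congr_ae (Eventually.of_forall fun z => ?_)
    simp only [shift_to, sub_self, fb_zero]
    ring
  have e2 : ∫ z, f z.2 * (∏ i ∈ Finset.range 2, fb f l (v i) z) * g z.2 ^ 1 ∂(muRE d) =
      ∫ z, (f z.2 * fb f l (q - p) z * fb f l (r - p) z) * g z.2 ∂(muRE d) := by
    refine integral_congr_ae (Eventually.of_forall fun z => ?_)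
    have v0 : v 0 = q - p := rfl
    have v1 : v 1 = r - p := rfl
    simp only [Finset.prod_range_succ, Finset.prod_range_zero, v0, v1, one_mul, pow_one]
    ring
  rw [e2] at h2
  have e3 : 2 + 1 + 1 = 4 := rfl
  rw [e3] at h2
  have F0 : ∀ z : Rot d × E d, 0 ≤ f z.2 * fb f l (q - p) z * fb f l (r - p) z := fun z =>
    mul_nonneg (mul_nonneg (h.f_nonneg _) (h.f0 _ _)) (h.f0 _ _)
  have F1 : ∀ z : Rot d × E d, f z.2 * fb f l (q - p) z * fb f l (r - p) z ≤ f z.2 := fun z =>
    (mul_le_of_le_one_right (mul_nonneg (h.f_nonneg _) (h.f0 _ _)) (h.f1 _ _)).trans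
      (mul_le_of_le_one_right (h.f_nonneg _) (h.f1 _ _))
  have i1 : Integrable (fun z => (f z.2 * fb f l (q - p) z * fb f l (r - p) z) *
      fb g l (a - p) z) (muRE d) := by
    refine dom_int (G := fun z => f z.2) (((hfm.mul hqm).mul hrm).mul ham)
      (snd_int h.f_int) ?_
    intro z
    rw [abs_of_nonneg (mul_nonneg (F0 z) (h.g0 _ _))]
    exact le_trans (mul_le_of_le_one_right (F0 z) (h.g1 _ _)) (F1 z)
  have i2 : Integrable (fun z => (f z.2 * fb f l (q - p) z * fb f l (r - p) z) * g z.2)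
      (muRE d) := by
    refine dom_int (G := fun z => f z.2) (((hfm.mul hqm).mul hrm).mul hgm)
      (snd_int h.f_int) ?_
    intro z
    rw [abs_of_nonneg (mul_nonneg (F0 z) (h.g_nonneg _))]
    exact le_trans (mul_le_of_le_one_right (F0 z) (h.g_le_one _)) (F1 z)
  have s3 : |∫ z, (f z.2 * fb f l (q - p) z * fb f l (r - p) z) * fb g l (a - p) z ∂(muRE d) -
      ∫ z, (f z.2 * fb f l (q - p) z * fb f l (r - p) z) * g z.2 ∂(muRE d)| ≤
        (t / 2) * V := by
    rw [← integral_sub i1 i2]
    calc |∫ z, ((f z.2 * fb f l (q - p) z * fb f l (r - p) z) * fb g l (a - p) z -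
          (f z.2 * fb f l (q - p) z * fb f l (r - p) z) * g z.2) ∂(muRE d)| ≤
        ∫ z, |(f z.2 * fb f l (q - p) z * fb f l (r - p) z) * fb g l (a - p) z -
          (f z.2 * fb f l (q - p) z * fb f l (r - p) z) * g z.2| ∂(muRE d) :=
            abs_integral_le_integral_abs
      _ ≤ ∫ z, f z.2 * |fb g l (a - p) z - g z.2| ∂(muRE d) := by
          apply integral_mono_of_nonneg
          · exact Eventually.of_forall fun z => abs_nonneg _
          · exact ia
          · refine Eventually.of_forall fun z => ?_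
            show |(f z.2 * fb f l (q - p) z * fb f l (r - p) z) * fb g l (a - p) z -
              (f z.2 * fb f l (q - p) z * fb f l (r - p) z) * g z.2| ≤ _
            rw [← mul_sub, abs_mul, abs_of_nonneg (F0 z)]
            exact mul_le_mul_of_nonneg_right (F1 z) (abs_nonneg _)
      _ ≤ (t / 2) * V := sa
  rw [e1]
  rw [abs_le] at h2 s3 ⊢
  constructor
  · linarith [h2.1, s3.1]
  · linarith [h2.2, s3.2]

theorem lin_of_aff4 {x y s1 s2 : E d} (h : AffineIndependent ℝ ![x, y, s1, s2]) :
    s1 ≠ s2 ∧ LinearIndependent ℝ ![s2 - s1, x - s1] ∧ LinearIndependent ℝ ![s2 - s1, y - s1] := by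
  rw [affineIndependent_iff_of_fintype] at h
  have key : ∀ a b c e : ℝ, a + b + c + e = 0 → a • x + b • y + c • s1 + e • s2 = 0 →
      a = 0 ∧ b = 0 ∧ c = 0 ∧ e = 0 := by
    intro a b c e h1 h2
    have h3 : ∑ i, ![a, b, c, e] i = 0 := by
      rw [Fin.sum_univ_four]
      exact h1
    have h4 := h ![a, b, c, e] h3 (by
      rw [Finset.univ.weightedVSub_eq_linear_combination h3, Fin.sum_univ_four]
      exact h2)
    exact ⟨h4 0, h4 1, h4 2, h4 3⟩
  refine ⟨?_, ?_, ?_⟩
  · intro h0
    have := (key 0 0 1 (-1) (by norm_num) (by rw [h0]; module)).2.2.1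
    exact one_ne_zero this
  · rw [LinearIndependent.pair_iff]
    intro a b hab
    have := key b 0 (-a - b) a (by ring) (by rw [← hab]; module)
    exact ⟨this.2.2.2, this.1⟩
  · rw [LinearIndependent.pair_iff]
    intro a b hab
    have := key 0 b (-a - b) a (by ring) (by rw [← hab]; module)
    exact ⟨this.2.2.2, this.2.1⟩

/-- Replacement of a pair by its balanced version. -/
theorem ev_M2 (hd : 3 ≤ d) {x y s1 s2 : E d} (h : AffineIndependent ℝ ![x, y, s1, s2])
    (t : ℝ) (ht : 0 < t) :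
    Ev d (fun f g l V => |∫ z, (fb f l s1 z * fb f l s2 z) * (fb f l x z * fb f l y z)
        ∂(muRE d) -
      ∫ z, (fb f l s1 z * fb f l s2 z) * ((fb f l x z - fb g l x z) * (fb f l y z - fb g l y z))
        ∂(muRE d) - ∫ x, g x ^ 4| ≤ t * V) := by
  obtain ⟨hne, h1, h2⟩ := lin_of_aff4 h
  refine (((ev_three hd h1 y (t / 3) (by positivity)).and
    (ev_three hd h2 x (t / 3) (by positivity))).and
    (ev_two (by omega) hne x y (t / 3) (by positivity))).mono ?_
  intro f g l V C ε hg ⟨⟨k1, k2⟩, k3⟩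
  have b1 : ∀ {u : E d → ℝ} (_ : ∀ x, 0 ≤ u x) (_ : ∀ x, u x ≤ 1) (_ : Measurable u)
      {w : E d → ℝ} (_ : ∀ x, 0 ≤ w x) (_ : ∀ x, w x ≤ 1) (_ : Measurable w) (a b : E d),
      Integrable (fun z => (fb f l s1 z * fb f l s2 z) * (fb u l a z * fb w l b z))
        (muRE d) := by
    intro u u0 u1 um w w0 w1 wm a b
    refine dom_int (G := fb f l s1) (((fb_meas hg.f_meas l s1).mul (fb_meas hg.f_meas l s2)).mul
      ((fb_meas um l a).mul (fb_meas wm l b))) (fb_int hg.f_int l s1) ?_
    intro z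
    have a1 := hg.f0 s1 z
    have a2 := hg.f0 s2 z
    have a3 : 0 ≤ fb u l a z := u0 _
    have a4 : 0 ≤ fb w l b z := w0 _
    rw [abs_of_nonneg (mul_nonneg (mul_nonneg a1 a2) (mul_nonneg a3 a4)), mul_assoc]
    refine mul_le_of_le_one_right a1 ?_
    exact mul_le_one₀ (hg.f1 _ _) (mul_nonneg a3 a4) (mul_le_one₀ (u1 _) a4 (w1 _))
  have i0 := b1 hg.f_nonneg hg.f_le_one hg.f_meas hg.f_nonneg hg.f_le_one hg.f_meas x y
  have i1 := b1 hg.f_nonneg hg.f_le_one hg.f_meas hg.g_nonneg hg.g_le_one hg.g_meas x y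
  have i2 := b1 hg.f_nonneg hg.f_le_one hg.f_meas hg.g_nonneg hg.g_le_one hg.g_meas y x
  have i3 := b1 hg.g_nonneg hg.g_le_one hg.g_meas hg.g_nonneg hg.g_le_one hg.g_meas x y
  have e : ∫ z, (fb f l s1 z * fb f l s2 z) * ((fb f l x z - fb g l x z) *
      (fb f l y z - fb g l y z)) ∂(muRE d) =
      ∫ z, (fb f l s1 z * fb f l s2 z) * (fb f l x z * fb f l y z) ∂(muRE d) -
      ∫ z, (fb f l s1 z * fb f l s2 z) * (fb f l x z * fb g l y z) ∂(muRE d) -
      ∫ z, (fb f l s1 z * fb f l s2 z) * (fb f l y z * fb g l x z) ∂(muRE d) +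
      ∫ z, (fb f l s1 z * fb f l s2 z) * (fb g l x z * fb g l y z) ∂(muRE d) := by
    have i01 : Integrable (fun z => (fb f l s1 z * fb f l s2 z) * (fb f l x z * fb f l y z) -
      (fb f l s1 z * fb f l s2 z) * (fb f l x z * fb g l y z)) (muRE d) := i0.sub i1
    have i012 : Integrable (fun z => (fb f l s1 z * fb f l s2 z) * (fb f l x z * fb f l y z) -
      (fb f l s1 z * fb f l s2 z) * (fb f l x z * fb g l y z) -
      (fb f l s1 z * fb f l s2 z) * (fb f l y z * fb g l x z)) (muRE d) := i01.sub i2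
    rw [← integral_sub i0 i1, ← integral_sub i01 i2, ← integral_add i012 i3]
    refine integral_congr_ae (Eventually.of_forall fun z => ?_)
    ring
  rw [e]
  rw [abs_le] at k1 k2 k3 ⊢
  constructor
  · linarith [k1.1, k1.2, k2.1, k2.2, k3.1, k3.2]
  · linarith [k1.1, k1.2, k2.1, k2.2, k3.1, k3.2]

/-- From counts to the large-dilates property. -/
theorem density_of_count (hd : 2 ≤ d) (P : Fin (d + 1) → E d)
    (hcount : ∀ s : ℝ, 0 < s → Ev d (fun f g l V =>
      |∫ z, ∏ i, fb f l (P i) z ∂(muRE d) - ∫ x, g x ^ (d + 1)| ≤ s * V))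
    (A : Set (E d)) (hA : NullMeasurableSet A volume) (hdens : 0 < upperDensity A) :
    ∃ l₀ : ℝ, ∀ l : ℝ, l₀ ≤ l →
      ∃ (x : E d) (O : E d ≃ₗᵢ[ℝ] E d), ∀ i, x + O (l • P i) ∈ A := by
  classical
  obtain ⟨B, hBA, hBm, hBe⟩ := hA.exists_measurable_subset_ae_eq
  have hB1 : upperDensity B = upperDensity A := by
    unfold upperDensity
    congr 1
    funext T
    have : volume (B ∩ box d T) = volume (A ∩ box d T) :=
      measure_congr (hBe.inter (ae_eq_refl (box d T)))
    rw [this]
  rw [← hB1] at hdens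
  by_contra hcon
  push Not at hcon
  obtain ⟨θ, hθ1, hθ2⟩ := exists_between hdens
  set s : ℝ := (θ / 2) ^ d * (θ / 4) / 2 with hs
  have hs0 : 0 < s := by positivity
  obtain ⟨C, hC, ε, hε, H⟩ := hcount s hs0
  obtain ⟨f, g, l, V, hbad, hgood, hfA, hmass⟩ := exists_good hd B hBm θ hθ1.le hθ2
    (fun l => ∀ (x : E d) (O : E d ≃ₗᵢ[ℝ] E d), ∃ i, x + O (l • P i) ∉ A) hcon C hC
    (min ε (1 / 2)) (lt_min hε (by norm_num))
  have hV := hgood.V_pos
  have H1 : |∫ z, ∏ i, fb f l (P i) z ∂(muRE d) - ∫ x, g x ^ (d + 1)| ≤ s * V :=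
    H f g l V (hgood.mono le_rfl hC (min_le_left _ _))
  have H2 := moment hgood d (le_min hε.le (by norm_num)) (min_le_right _ _) hθ1.le hmass
  have hin : ∀ x, f x ≠ 0 → x ∈ A := fun x hx => by
    rcases hfA x with h | h
    · exact absurd h hx
    · exact hBA h.2
  have hvan : ∀ z : Rot d × E d, ∏ i, fb f l (P i) z = 0 := by
    intro z
    by_contra hne
    obtain ⟨k, hk⟩ := hbad z.2 (toIso z.1)
    apply hk
    rw [toIso_apply, act_smul]
    apply hin
    exact Finset.prod_ne_zero_iff.mp hne k (Finset.mem_univ _)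
  have hzero : ∫ z, ∏ i, fb f l (P i) z ∂(muRE d) = 0 := by
    simp only [hvan, integral_zero]
  rw [hzero, abs_le] at H1
  have h5 : (θ / 2) ^ d * (θ / 4) * V = 2 * (s * V) := by
    rw [hs]
    ring
  have h6 : 0 < s * V := mul_pos hs0 hV
  linarith [H1.1]

end Pool.Agent.H16.Simp
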