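import Pool.Agent.H16.Simp.Refl

/-!
# Reflections and affine independence of four points
-/

open MeasureTheory Measure Metric Filter Topology
open scoped RealInnerProductSpace

namespace Pool.Agent.H16.Simp

variable {d : ℕ}

theorem inner_act (R : Rot d) (v w : E d) : ⟪act R v, act R w⟫ = ⟪v, w⟫ :=
  (toIso R).inner_map_map v w

/-- The reflections used in the proof. -/
noncomputable def rf (u z : E d) (j : ℕ) : Rot d :=
  ofIso (Submodule.reflection (ℝ ∙ (u + (j : ℝ) • z))ᗮ)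

theorem rf_apply (u z v : E d) (j : ℕ) : act (rf u z j) v =
    v - (2 * (⟪u + (j : ℝ) • z, v⟫ / ‖u + (j : ℝ) • z‖ ^ 2)) • (u + (j : ℝ) • z) :=
  act_refl _ _

theorem rf_rf (u z v : E d) (j : ℕ) : act (rf u z j) (act (rf u z j) v) = v := by
  unfold rf
  rw [act_ofIso, act_ofIso]
  exact Submodule.reflection_reflection _ v

theorem rf_fix {u z v : E d} (hu : ⟪u, v⟫ = 0) (hz : ⟪z, v⟫ = 0) (j : ℕ) :
    act (rf u z j) v = v := by
  rw [rf_apply, inner_add_left, inner_smul_left, hu, hz]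
  simp

theorem norm_uz {u z : E d} (huz : ⟪u, z⟫ = 0) (c : ℝ) :
    ‖u + c • z‖ ^ 2 = ‖u‖ ^ 2 + c ^ 2 * ‖z‖ ^ 2 := by
  rw [norm_add_sq_real, inner_smul_right, huz, norm_smul]
  simp only [mul_zero, add_zero, mul_pow]
  rw [Real.norm_eq_abs, sq_abs]

theorem rf_sep {u z : E d} (hu : u ≠ 0) (hz : z ≠ 0) (huz : ⟪u, z⟫ = 0) {i j : ℕ} (hij : i ≠ j)
    {v : E d} (h : act (rf u z i) v = act (rf u z j) v) : ⟪u, v⟫ = 0 ∧ ⟪z, v⟫ = 0 := by
  have hU : 0 < ‖u‖ ^ 2 := by
    have := norm_pos_iff.2 hu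
    positivity
  have hZ : 0 < ‖z‖ ^ 2 := by
    have := norm_pos_iff.2 hz
    positivity
  have hzu : ⟪z, u⟫ = 0 := by rw [real_inner_comm]; exact huz
  rw [rf_apply, rf_apply, sub_right_inj] at h
  set α : ℝ := 2 * (⟪u + (i : ℝ) • z, v⟫ / ‖u + (i : ℝ) • z‖ ^ 2) with hα
  set β : ℝ := 2 * (⟪u + (j : ℝ) • z, v⟫ / ‖u + (j : ℝ) • z‖ ^ 2) with hβ
  have h1 := congrArg (fun w => ⟪w, u⟫) h
  have h2 := congrArg (fun w => ⟪w, z⟫) h
  simp only [inner_smul_left, inner_add_left, real_inner_self_eq_norm_sq, hzu, huz,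
    conj_trivial, mul_zero, add_zero, zero_add] at h1 h2
  have h3 : α = β := mul_right_cancel₀ hU.ne' h1
  have hij' : (i : ℝ) ≠ (j : ℝ) := by exact_mod_cast hij
  have h4 : α * (i : ℝ) = β * (j : ℝ) := by
    apply mul_right_cancel₀ hZ.ne'
    linarith
  rw [← h3] at h4
  have h5 : α = 0 := by
    by_contra hne
    exact hij' (mul_left_cancel₀ hne h4)
  have h6 : β = 0 := by rw [← h3]; exact h5
  have npos : ∀ k : ℕ, ‖u + (k : ℝ) • z‖ ^ 2 ≠ 0 := by
    intro k
    rw [norm_uz huz]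
    positivity
  have h7 : ⟪u + (i : ℝ) • z, v⟫ = 0 := by
    rw [hα] at h5
    have := (mul_eq_zero.1 h5).resolve_left two_ne_zero
    exact (div_eq_zero_iff.1 this).resolve_right (npos i)
  have h8 : ⟪u + (j : ℝ) • z, v⟫ = 0 := by
    rw [hβ] at h6
    have := (mul_eq_zero.1 h6).resolve_left two_ne_zero
    exact (div_eq_zero_iff.1 this).resolve_right (npos j)
  rw [inner_add_left, inner_smul_left, conj_trivial] at h7 h8
  have h9 : ((i : ℝ) - j) * ⟪z, v⟫ = 0 := by linarith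
  have h10 : ⟪z, v⟫ = 0 := (mul_eq_zero.1 h9).resolve_left (sub_ne_zero.2 hij')
  refine ⟨?_, h10⟩
  rw [h10] at h7
  linarith

theorem rf_indep {u z : E d} (hu : u ≠ 0) (hz : z ≠ 0) (huz : ⟪u, z⟫ = 0) {i j : ℕ}
    (hij : i ≠ j) {α β : ℝ} (h : α • act (rf u z i) u + β • act (rf u z j) u = 0) :
    α = 0 ∧ β = 0 := by
  have hU : 0 < ‖u‖ ^ 2 := by
    have := norm_pos_iff.2 hu
    positivity
  have hZ : 0 < ‖z‖ ^ 2 := by
    have := norm_pos_iff.2 hz
    positivity
  have hzu : ⟪z, u⟫ = 0 := by rw [real_inner_comm]; exact huz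
  have hpos : ∀ k : ℕ, 0 < ‖u‖ ^ 2 + (k : ℝ) ^ 2 * ‖z‖ ^ 2 := by
    intro k
    positivity
  have hin : ∀ k : ℕ, ⟪u + (k : ℝ) • z, u⟫ = ‖u‖ ^ 2 := by
    intro k
    rw [inner_add_left, inner_smul_left, hzu, real_inner_self_eq_norm_sq]
    simp
  rw [rf_apply, rf_apply, hin, hin, norm_uz huz, norm_uz huz] at h
  have h1 := congrArg (fun w => ⟪w, u⟫) h
  have h2 := congrArg (fun w => ⟪w, z⟫) h
  simp only [inner_smul_left, inner_add_left, inner_sub_left, real_inner_self_eq_norm_sq, hzu,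
    huz, conj_trivial, mul_zero, add_zero, zero_add, inner_zero_left, zero_sub] at h1 h2
  set A : ℝ := ‖u‖ ^ 2 with hA
  set Z : ℝ := ‖z‖ ^ 2 with hZd
  have hi := hpos i
  have hj := hpos j
  have h3 : α * (i * (A + (j : ℝ) ^ 2 * Z)) + β * (j * (A + (i : ℝ) ^ 2 * Z)) = 0 := by
    have e : α * (i * (A + (j : ℝ) ^ 2 * Z)) + β * (j * (A + (i : ℝ) ^ 2 * Z)) =
        -((A + (i : ℝ) ^ 2 * Z) * (A + (j : ℝ) ^ 2 * Z) / (2 * A * Z)) *
        (α * -(2 * (A / (A + (i : ℝ) ^ 2 * Z)) * (i * Z)) +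
          β * -(2 * (A / (A + (j : ℝ) ^ 2 * Z)) * (j * Z))) := by
      field_simp
      ring
    rw [e, h2, mul_zero]
  have h4 : α * (((i : ℝ) ^ 2 * Z - A) * (A + (j : ℝ) ^ 2 * Z)) +
      β * (((j : ℝ) ^ 2 * Z - A) * (A + (i : ℝ) ^ 2 * Z)) = 0 := by
    have e : α * (((i : ℝ) ^ 2 * Z - A) * (A + (j : ℝ) ^ 2 * Z)) +
      β * (((j : ℝ) ^ 2 * Z - A) * (A + (i : ℝ) ^ 2 * Z)) =
        ((A + (i : ℝ) ^ 2 * Z) * (A + (j : ℝ) ^ 2 * Z) / A) *
        (α * (A - 2 * (A / (A + (i : ℝ) ^ 2 * Z)) * A) +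
          β * (A - 2 * (A / (A + (j : ℝ) ^ 2 * Z)) * A)) := by
      field_simp
      ring
    rw [e, h1, mul_zero]
  have hij' : (j : ℝ) - i ≠ 0 := sub_ne_zero.2 (by exact_mod_cast hij.symm)
  have hD : (0 : ℝ) < (i : ℝ) * j * Z + A := by positivity
  have h5 : α * ((A + (i : ℝ) ^ 2 * Z) * (A + (j : ℝ) ^ 2 * Z) *
      (((j : ℝ) - i) * ((i : ℝ) * j * Z + A))) = 0 := by
    linear_combination ((j : ℝ) ^ 2 * Z - A) * (A + (i : ℝ) ^ 2 * Z) * h3 -
      (j * (A + (i : ℝ) ^ 2 * Z)) * h4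
  have h6 : β * ((A + (i : ℝ) ^ 2 * Z) * (A + (j : ℝ) ^ 2 * Z) *
      (((j : ℝ) - i) * ((i : ℝ) * j * Z + A))) = 0 := by
    linear_combination -(((i : ℝ) ^ 2 * Z - A) * (A + (j : ℝ) ^ 2 * Z)) * h3 +
      (i * (A + (j : ℝ) ^ 2 * Z)) * h4
  have hne : (A + (i : ℝ) ^ 2 * Z) * (A + (j : ℝ) ^ 2 * Z) *
      (((j : ℝ) - i) * ((i : ℝ) * j * Z + A)) ≠ 0 :=
    mul_ne_zero (mul_ne_zero hi.ne' hj.ne') (mul_ne_zero hij' hD.ne')
  exact ⟨(mul_eq_zero.1 h5).resolve_right hne, (mul_eq_zero.1 h6).resolve_right hne⟩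

/-- Criterion for affine independence of four points. -/
theorem aff4 {p q r s : E d} (h : ∀ a b c e : ℝ, a + b + c + e = 0 →
    a • p + b • q + c • r + e • s = 0 → a = 0 ∧ b = 0 ∧ c = 0 ∧ e = 0) :
    AffineIndependent ℝ ![p, q, r, s] := by
  rw [affineIndependent_iff_of_fintype]
  intro w hw hsum i
  rw [Finset.univ.weightedVSub_eq_linear_combination hw] at hsum
  rw [Fin.sum_univ_four] at hw hsum
  obtain ⟨h0, h1, h2, h3⟩ := h (w 0) (w 1) (w 2) (w 3) hw hsum
  fin_cases i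
  · exact h0
  · exact h1
  · exact h2
  · exact h3

section frame

variable {W : Submodule ℝ (E d)} {u z x y : E d}

/-- The plane orthogonal to `W` is spanned by `u` and `z`. -/
structure Frame (W : Submodule ℝ (E d)) (u z : E d) : Prop where
  hu : u ≠ 0
  hz : z ≠ 0
  huz : ⟪u, z⟫ = 0
  uW : ∀ w ∈ W, ⟪u, w⟫ = 0
  zW : ∀ w ∈ W, ⟪z, w⟫ = 0
  full : ∀ w, ⟪u, w⟫ = 0 → ⟪z, w⟫ = 0 → w ∈ W

theorem Frame.fix (h : Frame W u z) (j : ℕ) {w : E d} (hw : w ∈ W) : act (rf u z j) w = w :=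
  rf_fix (h.uW w hw) (h.zW w hw) j

theorem Frame.sep (h : Frame W u z) {i j : ℕ} (hij : i ≠ j) {v : E d}
    (hv : act (rf u z i) v = act (rf u z j) v) : v ∈ W := by
  obtain ⟨h1, h2⟩ := rf_sep h.hu h.hz h.huz hij hv
  exact h.full v h1 h2

theorem Frame.innerW (h : Frame W u z) (j : ℕ) {w : E d} (hw : w ∈ W) (v : E d) :
    ⟪w, act (rf u z j) v⟫ = ⟪w, v⟫ := by
  have := inner_act (rf u z j) w v
  rwa [h.fix j hw] at this

/-- Case 1: the pair is not orthogonal to `W`. -/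
theorem Frame.geo2 (h : Frame W u z) (hxy : ∀ α β : ℝ, α • x + β • y ∈ W → α = 0 ∧ β = 0)
    {w : E d} (hw : w ∈ W) (hwxy : ⟪w, x - y⟫ ≠ 0) {i j : ℕ} (hij : i ≠ j) :
    AffineIndependent ℝ ![act (rf u z i) x, act (rf u z i) y, act (rf u z j) x,
      act (rf u z j) y] := by
  apply aff4
  intro a b c e hs h0
  have h1 := congrArg (fun v => ⟪w, v⟫) h0
  simp only [inner_add_right, inner_smul_right, h.innerW _ hw, inner_zero_right] at h1
  rw [inner_sub_right] at hwxy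
  have h2 : (a + c) * (⟪w, x⟫ - ⟪w, y⟫) = 0 := by
    have : b = -(a + c) - e := by linarith
    rw [this] at h1
    linarith
  have h3 : a + c = 0 := (mul_eq_zero.1 h2).resolve_right hwxy
  have hc : c = -a := by linarith
  have he : e = -b := by linarith
  have h4 : act (rf u z i) (a • x + b • y) = act (rf u z j) (a • x + b • y) := by
    rw [act_add, act_add, act_smul, act_smul, act_smul, act_smul]
    rw [hc, he] at h0
    rw [← sub_eq_zero]
    rw [← h0]
    module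
  obtain ⟨h5, h6⟩ := hxy a b (h.sep hij h4)
  refine ⟨h5, h6, ?_, ?_⟩
  · rw [hc, h5, neg_zero]
  · rw [he, h6, neg_zero]

/-- Expansion of a vector orthogonal to `W`. -/
theorem Frame.expand (h : Frame W u z) (i : ℕ) {p : E d} (hp : ∀ w ∈ W, ⟪w, p⟫ = 0) :
    ∃ α β : ℝ, p = α • act (rf u z i) u + β • act (rf u z i) z := by
  have hU : 0 < ‖u‖ ^ 2 := by
    have := norm_pos_iff.2 h.hu
    positivity
  have hZ : 0 < ‖z‖ ^ 2 := by
    have := norm_pos_iff.2 h.hz
    positivity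
  have hzu : ⟪z, u⟫ = 0 := by rw [real_inner_comm]; exact h.huz
  set q : E d := act (rf u z i) p with hq
  set α : ℝ := ⟪u, q⟫ / ‖u‖ ^ 2 with hα
  set β : ℝ := ⟪z, q⟫ / ‖z‖ ^ 2 with hβ
  set r : E d := q - (α • u + β • z) with hr
  have h1 : ⟪u, r⟫ = 0 := by
    rw [hr, inner_sub_right, inner_add_right, inner_smul_right, inner_smul_right, h.huz,
      real_inner_self_eq_norm_sq, hα, div_mul_cancel₀ _ hU.ne']
    ring
  have h2 : ⟪z, r⟫ = 0 := by
    rw [hr, inner_sub_right, inner_add_right, inner_smul_right, inner_smul_right, hzu,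
      real_inner_self_eq_norm_sq, hβ, div_mul_cancel₀ _ hZ.ne']
    ring
  have h3 : r ∈ W := h.full r h1 h2
  have h4 : ⟪r, r⟫ = 0 := by
    have h5 : ⟪r, q⟫ = 0 := by rw [hq, h.innerW i h3]; exact hp r h3
    have h6 : ⟪r, u⟫ = 0 := by rw [real_inner_comm]; exact h1
    have h7 : ⟪r, z⟫ = 0 := by rw [real_inner_comm]; exact h2
    calc ⟪r, r⟫ = ⟪r, q⟫ - (α * ⟪r, u⟫ + β * ⟪r, z⟫) := by
          nth_rewrite 2 [hr]
          rw [inner_sub_right, inner_add_right, inner_smul_right, inner_smul_right]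
      _ = 0 := by rw [h5, h6, h7]; ring
  have h5 : r = 0 := inner_self_eq_zero.1 h4
  refine ⟨α, β, ?_⟩
  have h6 : q = α • u + β • z := by
    rw [hr] at h5
    exact sub_eq_zero.1 h5
  calc p = act (rf u z i) q := by rw [hq, rf_rf]
    _ = _ := by rw [h6, act_add, act_smul, act_smul]

/-- The image of `p` under the isometry that fixes `c` and whose linear part is `U`. -/
noncomputable def mv (U : Rot d) (c p : E d) : E d := act U p + (c - act U c)

theorem mv_eq (U : Rot d) (c p : E d) : mv U c p = c + act U (p - c) := by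
  unfold mv
  rw [act_sub]
  abel

theorem mv_self (U : Rot d) (c : E d) : mv U c c = c := by
  unfold mv
  abel

theorem norm_line (τ s : ℝ) (x v : E d) :
    ‖τ • x + s • v‖ ^ 2 = τ ^ 2 * ‖x‖ ^ 2 + 2 * τ * s * ⟪x, v⟫ + s ^ 2 * ‖v‖ ^ 2 := by
  rw [norm_add_sq_real, inner_smul_left, inner_smul_right, norm_smul, norm_smul, mul_pow,
    mul_pow, Real.norm_eq_abs, Real.norm_eq_abs, sq_abs, sq_abs]
  simp only [conj_trivial]
  ring

/-- Among three points of a line with the same norm two coincide. -/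
theorem three_line {τ s₁ s₂ s₃ X a V : ℝ} (hV : V ≠ 0)
    (h12 : τ ^ 2 * X + 2 * τ * s₁ * a + s₁ ^ 2 * V = τ ^ 2 * X + 2 * τ * s₂ * a + s₂ ^ 2 * V)
    (h13 : τ ^ 2 * X + 2 * τ * s₁ * a + s₁ ^ 2 * V = τ ^ 2 * X + 2 * τ * s₃ * a + s₃ ^ 2 * V) :
    s₁ = s₂ ∨ s₁ = s₃ ∨ s₂ = s₃ := by
  by_cases e1 : s₁ = s₂
  · exact Or.inl e1
  by_cases e2 : s₁ = s₃
  · exact Or.inr (Or.inl e2)
  right; right
  have h1 : (s₁ - s₂) * (2 * τ * a + (s₁ + s₂) * V) = 0 := by linarith
  have h2 : (s₁ - s₃) * (2 * τ * a + (s₁ + s₃) * V) = 0 := by linarith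
  have h3 := (mul_eq_zero.1 h1).resolve_left (sub_ne_zero.2 e1)
  have h4 := (mul_eq_zero.1 h2).resolve_left (sub_ne_zero.2 e2)
  have h5 : (s₂ - s₃) * V = 0 := by linarith
  exact sub_eq_zero.1 ((mul_eq_zero.1 h5).resolve_right hV)

/-- Case 2: the pair is orthogonal to `W`. -/
theorem Frame.geo3 (h : Frame W (x - y) z)
    (hxy : ∀ α β : ℝ, α • x + β • y ∈ W → α = 0 ∧ β = 0)
    {w₀ : E d} (hw₀ : w₀ ∈ W) (hw₀0 : w₀ ≠ 0) {i j j' : ℕ} (hij : i ≠ j) (hij' : i ≠ j')
    (hjj' : j ≠ j') :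
    AffineIndependent ℝ
      ![mv (rf (act (rf (x - y) z i) z) w₀ j) (act (rf (x - y) z i) x) (act (rf (x - y) z j) x),
        mv (rf (act (rf (x - y) z i) z) w₀ j) (act (rf (x - y) z i) x) (act (rf (x - y) z j) y),
        mv (rf (act (rf (x - y) z i) z) w₀ j') (act (rf (x - y) z i) x)
          (act (rf (x - y) z j') x),
        mv (rf (act (rf (x - y) z i) z) w₀ j') (act (rf (x - y) z i) x)
          (act (rf (x - y) z j') y)] := by
  set u : E d := x - y with hu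
  set K : ℕ → Rot d := fun j => rf u z j with hK
  set ν : E d := act (K i) z with hν
  set ω : E d := act (K i) u with hω
  set c : E d := act (K i) x with hc
  set U : ℕ → Rot d := fun b => rf ν w₀ b with hU
  have hKW : ∀ j, ∀ w ∈ W, ∀ v, ⟪w, act (K j) v⟫ = ⟪w, v⟫ := fun j w hw v => h.innerW j hw v
  have hν0 : ν ≠ 0 := by
    rw [← norm_pos_iff, hν, norm_act, norm_pos_iff]
    exact h.hz
  have hνw : ⟪ν, w₀⟫ = 0 := by
    rw [real_inner_comm, hν, hKW i w₀ hw₀, real_inner_comm]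
    exact h.zW w₀ hw₀
  have hνω : ⟪ν, ω⟫ = 0 := by
    rw [hν, hω, inner_act, real_inner_comm]
    exact h.huz
  have hwω : ⟪w₀, ω⟫ = 0 := by
    rw [hω, hKW i w₀ hw₀, real_inner_comm]
    exact h.uW w₀ hw₀
  have hUω : ∀ b, act (U b) ω = ω := fun b => rf_fix hνω hwω b
  have hω0 : ω ≠ 0 := by
    rw [← norm_pos_iff, hω, norm_act, norm_pos_iff]
    exact h.hu
  have hUν : ∀ b, ⟪ω, act (U b) ν⟫ = 0 := by
    intro b
    have := inner_act (U b) ω ν
    rw [hUω b, real_inner_comm ν ω, hνω] at this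
    exact this
  apply aff4
  intro a b c' e hs h0
  change a • mv (U j) c (act (K j) x) + b • mv (U j) c (act (K j) y) +
    c' • mv (U j') c (act (K j') x) + e • mv (U j') c (act (K j') y) = 0 at h0
  simp only [mv_eq] at h0
  set A : E d := a • (act (K j) x - c) + b • (act (K j) y - c) with hA
  set B : E d := c' • (act (K j') x - c) + e • (act (K j') y - c) with hB
  have h1 : act (U j) A + act (U j') B = 0 := by
    rw [hA, hB, act_add, act_add, act_smul, act_smul, act_smul, act_smul]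
    have h2 : (a + b + c' + e) • c = 0 := by rw [hs, zero_smul]
    have h3 : a • act (U j) (act (K j) x - c) + b • act (U j) (act (K j) y - c) +
        (c' • act (U j') (act (K j') x - c) + e • act (U j') (act (K j') y - c)) =
        (a • (c + act (U j) (act (K j) x - c)) + b • (c + act (U j) (act (K j) y - c)) +
          c' • (c + act (U j') (act (K j') x - c)) +
        e • (c + act (U j') (act (K j') y - c))) - (a + b + c' + e) • c := by module
    rw [h3, h0, h2, sub_zero]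
  have hxyW : ∀ w ∈ W, ⟪w, y⟫ = ⟪w, x⟫ := by
    intro w hw
    have := h.uW w hw
    rw [real_inner_comm, hu, inner_sub_right] at this
    linarith
  have hAW : ∀ w ∈ W, ⟪w, A⟫ = 0 := by
    intro w hw
    rw [hA, inner_add_right, inner_smul_right, inner_smul_right, inner_sub_right,
      inner_sub_right, hc, hKW _ w hw, hKW _ w hw, hKW _ w hw, hxyW w hw]
    ring
  have hBW : ∀ w ∈ W, ⟪w, B⟫ = 0 := by
    intro w hw
    rw [hB, inner_add_right, inner_smul_right, inner_smul_right, inner_sub_right,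
      inner_sub_right, hc, hKW _ w hw, hKW _ w hw, hKW _ w hw, hxyW w hw]
    ring
  obtain ⟨α, β, hA2⟩ := h.expand i hAW
  obtain ⟨α', β', hB2⟩ := h.expand i hBW
  change A = α • ω + β • ν at hA2
  change B = α' • ω + β' • ν at hB2
  rw [hA2, hB2, act_add, act_add, act_smul, act_smul, act_smul, act_smul, hUω, hUω] at h1
  have h2 := congrArg (fun v => ⟪ω, v⟫) h1
  simp only [inner_add_right, inner_smul_right, hUν, inner_zero_right,
    real_inner_self_eq_norm_sq] at h2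
  have hωn : ‖ω‖ ^ 2 ≠ 0 := by
    have := norm_pos_iff.2 hω0
    positivity
  have h3 : (α + α') * ‖ω‖ ^ 2 = 0 := by linarith
  have h4 : α + α' = 0 := (mul_eq_zero.1 h3).resolve_right hωn
  have h5 : β • act (U j) ν + β' • act (U j') ν = 0 := by
    have h6 : (α + α') • ω = 0 := by rw [h4, zero_smul]
    have h7 : β • act (U j) ν + β' • act (U j') ν =
        (α • ω + β • act (U j) ν + (α' • ω + β' • act (U j') ν)) - (α + α') • ω := by module
    rw [h7, h1, h6, sub_zero]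
  obtain ⟨hβ, hβ'⟩ := rf_indep hν0 hw₀0 hνw hjj' h5
  rw [hβ, zero_smul, add_zero] at hA2
  rw [hβ', zero_smul, add_zero] at hB2
  have hα' : α' = -α := by linarith
  -- three points on the line
  have E1 : act (K j) ((a + b) • x + (-b) • u) = act (K i) ((a + b) • x + α • u) := by
    have h7 : (a + b) • x + (-b) • u = a • x + b • y := by
      rw [hu]
      module
    rw [h7, act_add, act_add, act_smul, act_smul, act_smul, act_smul]
    rw [hA] at hA2
    rw [← sub_eq_zero] at hA2 ⊢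
    rw [← hA2]
    module
  have E2 : act (K j') ((a + b) • x + e • u) = act (K i) ((a + b) • x + α • u) := by
    have h7 : (a + b) • x + e • u = -(c' • x + e • y) := by
      have : a + b = -(c' + e) := by linarith
      rw [this, hu]
      module
    rw [h7, act_neg, act_add, act_add, act_smul, act_smul, act_smul, act_smul]
    rw [hB, hα'] at hB2
    have : a + b = -(c' + e) := by linarith
    rw [this]
    rw [← sub_eq_zero] at hB2 ⊢
    rw [← neg_eq_zero, ← hB2]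
    module
  have hun : ‖u‖ ^ 2 ≠ 0 := by
    have := norm_pos_iff.2 h.hu
    positivity
  have N1 : ‖(a + b) • x + α • u‖ ^ 2 = ‖(a + b) • x + (-b) • u‖ ^ 2 := by
    rw [← norm_act (K j) ((a + b) • x + (-b) • u), E1, norm_act]
  have N2 : ‖(a + b) • x + α • u‖ ^ 2 = ‖(a + b) • x + e • u‖ ^ 2 := by
    rw [← norm_act (K j') ((a + b) • x + e • u), E2, norm_act]
  rw [norm_line, norm_line] at N1 N2
  have hline : ∀ s : ℝ, (a + b) • x + s • u ∈ W → a + b = 0 ∧ s = 0 := by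
    intro s hs'
    have h7 : (a + b) • x + s • u = (a + b + s) • x + (-s) • y := by
      rw [hu]
      module
    rw [h7] at hs'
    obtain ⟨h8, h9⟩ := hxy _ _ hs'
    constructor <;> linarith
  have key : a + b = 0 ∧ α = 0 := by
    rcases three_line hun N1 N2 with h7 | h7 | h7
    · rw [← h7] at E1
      exact hline α (h.sep hij E1.symm)
    · rw [← h7] at E2
      exact hline α (h.sep hij' E2.symm)
    · rw [← h7, ← E1] at E2
      obtain ⟨h8, h9⟩ := hline (-b) (h.sep hjj' E2.symm)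
      refine ⟨h8, ?_⟩
      rw [h8, h9, zero_smul, zero_smul, add_zero, act_zero, zero_add, act_smul] at E1
      exact (smul_eq_zero.1 E1.symm).resolve_right hω0
  obtain ⟨k1, k2⟩ := key
  have hz0 : ∀ (i : ℕ) (s : ℝ), act (K i) ((a + b) • x + s • u) = 0 → s = 0 := by
    intro i s hs'
    rw [k1, zero_smul, zero_add] at hs'
    have h7 : ‖act (K i) (s • u)‖ = 0 := by rw [hs', norm_zero]
    rw [norm_act, norm_eq_zero] at h7
    exact (smul_eq_zero.1 h7).resolve_right h.hu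
  have hrhs : act (K i) ((a + b) • x + α • u) = 0 := by
    rw [k1, k2, zero_smul, zero_smul, add_zero, act_zero]
  have hb : -b = 0 := hz0 j (-b) (by rw [E1, hrhs])
  have he : e = 0 := hz0 j' e (by rw [E2, hrhs])
  refine ⟨?_, ?_, ?_, he⟩ <;> linarith

end frame

theorem exists_frame {W : Submodule ℝ (E d)} (hW : Module.finrank ℝ W + 2 = d) {u : E d}
    (hu : u ≠ 0) (huW : ∀ w ∈ W, ⟪u, w⟫ = 0) : ∃ z, Frame W u z := by
  obtain ⟨z, hz, hz0⟩ : ∃ z ∈ (W ⊔ (ℝ ∙ u))ᗮ, z ≠ 0 := by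
    apply Submodule.exists_mem_ne_zero_of_ne_bot
    intro hbot
    have h1 := Submodule.finrank_add_finrank_orthogonal (𝕜 := ℝ) (W ⊔ (ℝ ∙ u))
    rw [hbot, finrank_bot, add_zero, finrank_euclideanSpace_fin] at h1
    have h2 := Submodule.finrank_add_le_finrank_add_finrank W (ℝ ∙ u)
    have h3 := finrank_span_singleton (K := ℝ) hu
    omega
  have hzW : ∀ w ∈ W, ⟪w, z⟫ = 0 := fun w hw =>
    (Submodule.mem_orthogonal _ _).1 hz w (Submodule.mem_sup_left hw)
  have huz : ⟪u, z⟫ = 0 := (Submodule.mem_orthogonal _ _).1 hz u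
    (Submodule.mem_sup_right (Submodule.mem_span_singleton_self u))
  have hzW' : ∀ w ∈ W, ⟪z, w⟫ = 0 := fun w hw => by
    rw [real_inner_comm]
    exact hzW w hw
  refine ⟨z, ⟨hu, hz0, huz, huW, hzW', ?_⟩⟩
  intro w h1 h2
  obtain ⟨s, hs, t, ht, hst⟩ := W.exists_add_mem_mem_orthogonal w
  have hut : ⟪u, t⟫ = 0 := by
    rw [hst, inner_add_right, huW s hs, zero_add] at h1
    exact h1
  have hzt : ⟪z, t⟫ = 0 := by
    rw [hst, inner_add_right, hzW' s hs, zero_add] at h2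
    exact h2
  have htW : ∀ w ∈ W, ⟪w, t⟫ = 0 := fun w hw => (Submodule.mem_orthogonal _ _).1 ht w hw
  have ht0 : t = 0 := by
    by_contra hne
    set W1 : Submodule ℝ (E d) := W ⊔ (ℝ ∙ u) with hW1
    set W2 : Submodule ℝ (E d) := W1 ⊔ (ℝ ∙ z) with hW2
    have l1 : W < W1 := by
      refine lt_of_le_of_ne le_sup_left ?_
      intro heq
      have : u ∈ W := by
        rw [heq, hW1]
        exact Submodule.mem_sup_right (Submodule.mem_span_singleton_self u)
      exact hu (inner_self_eq_zero.1 (huW u this))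
    have l2 : W1 < W2 := by
      refine lt_of_le_of_ne le_sup_left ?_
      intro heq
      have : z ∈ W1 := by
        rw [heq, hW2]
        exact Submodule.mem_sup_right (Submodule.mem_span_singleton_self z)
      exact hz0 (inner_self_eq_zero.1 ((Submodule.mem_orthogonal _ _).1 hz z this))
    have f1 := Submodule.finrank_lt_finrank_of_lt l1
    have f2 := Submodule.finrank_lt_finrank_of_lt l2
    have f3 := Submodule.finrank_add_finrank_orthogonal (𝕜 := ℝ) W2
    rw [finrank_euclideanSpace_fin] at f3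
    have f4 : Module.finrank ℝ W2ᗮ = 0 := by omega
    have f5 : W2ᗮ = ⊥ := Submodule.finrank_eq_zero.1 f4
    have f6 : t ∈ W2ᗮ := by
      rw [hW2, hW1, ← Submodule.inf_orthogonal, ← Submodule.inf_orthogonal]
      refine ⟨⟨ht, ?_⟩, ?_⟩
      · exact Submodule.mem_orthogonal_singleton_iff_inner_right.2 hut
      · exact Submodule.mem_orthogonal_singleton_iff_inner_right.2 hzt
    rw [f5] at f6
    exact hne ((Submodule.mem_bot ℝ).1 f6)
  rw [hst, ht0, add_zero]
  exact hs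

end Pool.Agent.H16.Simp
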