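import Pool.Agent.H16.Simp4.Ev
import Pool.Agent.H16.Simp4.Geo

/-!
# Counts for four and for two points
-/

open MeasureTheory Measure Metric Filter Topology
open scoped RealInnerProductSpace

namespace Pool.Agent.H16.Simp

variable {d : ℕ}

theorem fb_flow (f : E d → ℝ) (l : ℝ) (U : Rot d) (t p : E d) (z : Rot d × E d) :
    fb f l p (z.1 * U, z.2 + l • act z.1 t) = fb f l (act U p + t) z := by
  unfold fb
  simp only [act_mul, act_add, smul_add]
  congr 1
  abel

theorem mp_flow (l : ℝ) (U : Rot d) (t : E d) :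
    MeasurePreserving (fun z : Rot d × E d => (z.1 * U, z.2 + l • act z.1 t)) (muRE d)
      (muRE d) := (mp_right U).comp (mp_shift l t)

/-- The correlation at four points. -/
noncomputable def I4 (f : E d → ℝ) (l : ℝ) (p q r s : E d) : ℝ :=
  ∫ z, (fb f l p z * fb f l q z) * (fb f l r z * fb f l s z) ∂(muRE d)

/-- The correlation at two points, weighted with the squared local density. -/
noncomputable def G2 (f g : E d → ℝ) (l : ℝ) (p q : E d) : ℝ :=
  ∫ z, fb f l p z * fb f l q z * g z.2 ^ 2 ∂(muRE d)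

/-- The deviation of a pair. -/
noncomputable def Qf (f g : E d → ℝ) (l : ℝ) (p q : E d) (z : Rot d × E d) : ℝ :=
  fb f l p z * fb f l q z - g z.2 ^ 2

theorem I4_flow {f : E d → ℝ} (hf : Measurable f) (l : ℝ) (U : Rot d) (t p q r s : E d) :
    I4 f l (act U p + t) (act U q + t) (act U r + t) (act U s + t) = I4 f l p q r s := by
  unfold I4
  rw [← mp_integral (mp_flow l U t) (fun z => (fb f l p z * fb f l q z) *
    (fb f l r z * fb f l s z)) (((fb_meas hf l p).mul (fb_meas hf l q)).mul
      ((fb_meas hf l r).mul (fb_meas hf l s)))]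
  simp only [fb_flow]

theorem I4_mv {f : E d → ℝ} (hf : Measurable f) (l : ℝ) (U : Rot d) (c p q r s : E d) :
    I4 f l (mv U c p) (mv U c q) (mv U c r) (mv U c s) = I4 f l p q r s :=
  I4_flow hf l U (c - act U c) p q r s

theorem ev_smooth (p : E d) (t : ℝ) (ht : 0 < t) : Ev d (fun f g l V =>
    Integrable (fun z => (fb g l p z - g z.2) ^ 2) (muRE d) ∧
    ∫ z, (fb g l p z - g z.2) ^ 2 ∂(muRE d) ≤ t * V) := by
  refine ⟨max 1 ‖p‖, le_max_left _ _, t, ht, ?_⟩
  intro f g l V h
  have hgm : Measurable (fun z : Rot d × E d => g z.2) := h.g_meas.comp measurable_snd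
  have hgbm := fb_meas h.g_meas l p
  have gd_int : Integrable (fun z => (fb g l p z - g z.2) ^ 2) (muRE d) := by
    refine dom_int (G := fun z => fb g l p z + g z.2) ((hgbm.sub hgm).pow_const 2)
      ((fb_int h.g_int l p).add (snd_int h.g_int)) ?_
    intro z
    rw [abs_of_nonneg (sq_nonneg _)]
    show (g (z.2 + l • act z.1 p) - g z.2) ^ 2 ≤ g (z.2 + l • act z.1 p) + g z.2
    have a1 := h.g_nonneg (z.2 + l • act z.1 p)
    have a2 := h.g_le_one (z.2 + l • act z.1 p)
    have a3 := h.g_nonneg z.2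
    have a4 := h.g_le_one z.2
    nlinarith [mul_nonneg a1 a3]
  refine ⟨gd_int, ?_⟩
  rw [integral_prod _ gd_int]
  calc ∫ R, (∫ x, (fb g l p (R, x) - g x) ^ 2) ∂(rotHaar d) ≤ ∫ _R : Rot d, t * V
        ∂(rotHaar d) := by
        apply integral_mono_of_nonneg
        · exact Eventually.of_forall fun R => integral_nonneg fun x => sq_nonneg _
        · exact integrable_const _
        · refine Eventually.of_forall fun R => ?_
          exact h.smooth (act R p) (by rw [norm_act]; exact le_max_right _ _)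
    _ = t * V := by simp

theorem cnt2 (hd : 2 ≤ d) {p q : E d} (hpq : p ≠ q) (t : ℝ) (ht : 0 < t) :
    Ev d (fun f g l V => |G2 f g l p q - ∫ x, g x ^ 4| ≤ t * V) := by
  have hq : q - p ≠ 0 := sub_ne_zero.2 hpq.symm
  have h1 := corek hd 1 2 (by omega) (fun _ => q - p) (by
    intro i hi
    have : ((fun _ : ℕ => q - p) '' {j | j < i}) = ∅ := by
      have : {j | j < i} = (∅ : Set ℕ) := by
        ext j
        simp only [Set.mem_ofPred_eq, Set.mem_empty_iff_false, iff_false]
        omega
      rw [this, Set.image_empty]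
    rw [this, Submodule.span_empty, Submodule.mem_bot]
    exact hq) (t / 2) (by positivity)
  refine (h1.and (ev_smooth (-p) ((t / 4) ^ 2) (by positivity))).mono ?_
  intro f g l V C ε h ⟨h2, gd_int, h3⟩
  have hV := h.V_pos
  have hfm : Measurable (fun z : Rot d × E d => f z.2) := h.f_meas.comp measurable_snd
  have hgm : Measurable (fun z : Rot d × E d => g z.2) := h.g_meas.comp measurable_snd
  have hgbm := fb_meas h.g_meas l (-p)
  have hqm := fb_meas h.f_meas l (q - p)
  have e1 : G2 f g l p q = ∫ z, f z.2 * fb f l (q - p) z * fb g l (-p) z ^ 2 ∂(muRE d) := by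
    unfold G2
    rw [← integral_shift l (-p) (fun z => fb f l p z * fb f l q z * g z.2 ^ 2)
      (((fb_meas h.f_meas l p).mul (fb_meas h.f_meas l q)).mul (hgm.pow_const 2))]
    refine integral_congr_ae (Eventually.of_forall fun z => ?_)
    show f (z.2 + l • act z.1 (-p) + l • act z.1 p) * f (z.2 + l • act z.1 (-p) + l • act z.1 q) *
      g (z.2 + l • act z.1 (-p)) ^ 2 = f z.2 * f (z.2 + l • act z.1 (q - p)) *
        g (z.2 + l • act z.1 (-p)) ^ 2
    have a1 : z.2 + l • act z.1 (-p) + l • act z.1 p = z.2 := by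
      rw [act_neg, smul_neg]
      abel
    have a2 : z.2 + l • act z.1 (-p) + l • act z.1 q = z.2 + l • act z.1 (q - p) := by
      rw [act_neg, smul_neg, act_sub, smul_sub]
      abel
    rw [a1, a2]
  have e2 : ∫ z, f z.2 * (∏ i ∈ Finset.range 1, fb f l ((fun _ : ℕ => q - p) i) z) *
      g z.2 ^ 2 ∂(muRE d) = ∫ z, f z.2 * fb f l (q - p) z * g z.2 ^ 2 ∂(muRE d) := by
    simp
  rw [e2] at h2
  have e3 : 1 + 1 + 2 = 4 := rfl
  rw [e3] at h2
  -- the replacement of the weight
  have F0 : ∀ z : Rot d × E d, 0 ≤ f z.2 * fb f l (q - p) z := fun z =>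
    mul_nonneg (h.f_nonneg _) (h.f0 _ _)
  have F1 : ∀ z : Rot d × E d, f z.2 * fb f l (q - p) z ≤ f z.2 := fun z =>
    mul_le_of_le_one_right (h.f_nonneg _) (h.f1 _ _)
  have i1 : Integrable (fun z => f z.2 * fb f l (q - p) z * fb g l (-p) z ^ 2) (muRE d) := by
    refine dom_int (G := fun z => f z.2) ((hfm.mul hqm).mul (hgbm.pow_const 2))
      (snd_int h.f_int) ?_
    intro z
    rw [abs_of_nonneg (mul_nonneg (F0 z) (sq_nonneg _))]
    refine le_trans (mul_le_of_le_one_right (F0 z) ?_) (F1 z)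
    exact pow_le_one₀ (h.g0 _ _) (h.g1 _ _)
  have i2 : Integrable (fun z => f z.2 * fb f l (q - p) z * g z.2 ^ 2) (muRE d) := by
    refine dom_int (G := fun z => f z.2) ((hfm.mul hqm).mul (hgm.pow_const 2))
      (snd_int h.f_int) ?_
    intro z
    rw [abs_of_nonneg (mul_nonneg (F0 z) (sq_nonneg _))]
    refine le_trans (mul_le_of_le_one_right (F0 z) ?_) (F1 z)
    exact pow_le_one₀ (h.g_nonneg _) (h.g_le_one _)
  have i3 : Integrable (fun z => f z.2 * |fb g l (-p) z - g z.2|) (muRE d) := by
    refine dom_int (G := fun z => f z.2) (hfm.mul (hgbm.sub hgm).abs) (snd_int h.f_int) ?_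
    intro z
    rw [abs_mul, abs_of_nonneg (h.f_nonneg _), abs_abs]
    refine mul_le_of_le_one_right (h.f_nonneg _) ?_
    show |g (z.2 + l • act z.1 (-p)) - g z.2| ≤ 1
    rw [abs_le]
    have a1 := h.g_nonneg (z.2 + l • act z.1 (-p))
    have a2 := h.g_le_one (z.2 + l • act z.1 (-p))
    have a3 := h.g_nonneg z.2
    have a4 := h.g_le_one z.2
    constructor <;> linarith
  have s2 : |∫ z, f z.2 * |fb g l (-p) z - g z.2| ∂(muRE d)| ≤ (t / 4) * V := by
    apply cs (by positivity)
    · have := h.ff_int 0 0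
      simpa [sq, fb_zero] using this
    · simpa [sq_abs] using gd_int
    · have := h.ff_le 0
      simpa [sq, fb_zero] using this
    · simpa [sq_abs] using h3
  have s3 : |∫ z, f z.2 * fb f l (q - p) z * fb g l (-p) z ^ 2 ∂(muRE d) -
      ∫ z, f z.2 * fb f l (q - p) z * g z.2 ^ 2 ∂(muRE d)| ≤ 2 * ((t / 4) * V) := by
    rw [← integral_sub i1 i2]
    calc |∫ z, (f z.2 * fb f l (q - p) z * fb g l (-p) z ^ 2 -
          f z.2 * fb f l (q - p) z * g z.2 ^ 2) ∂(muRE d)| ≤
        ∫ z, |f z.2 * fb f l (q - p) z * fb g l (-p) z ^ 2 -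
          f z.2 * fb f l (q - p) z * g z.2 ^ 2| ∂(muRE d) := abs_integral_le_integral_abs
      _ ≤ ∫ z, 2 * (f z.2 * |fb g l (-p) z - g z.2|) ∂(muRE d) := by
          apply integral_mono_of_nonneg
          · exact Eventually.of_forall fun z => abs_nonneg _
          · exact i3.const_mul _
          · refine Eventually.of_forall fun z => ?_
            show |f z.2 * fb f l (q - p) z * fb g l (-p) z ^ 2 -
              f z.2 * fb f l (q - p) z * g z.2 ^ 2| ≤ _
            rw [← mul_sub, abs_mul, abs_of_nonneg (F0 z)]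
            have := abs_pow_sub_pow (h.g_nonneg (z.2 + l • act z.1 (-p))) (h.g_le_one _)
              (h.g_nonneg z.2) (h.g_le_one z.2) 2
            calc _ ≤ f z.2 * ((2 : ℕ) * |g (z.2 + l • act z.1 (-p)) - g z.2|) :=
                  mul_le_mul (F1 z) this (abs_nonneg _) (h.f_nonneg _)
              _ = _ := by
                  unfold fb
                  push_cast
                  ring
      _ = 2 * ∫ z, f z.2 * |fb g l (-p) z - g z.2| ∂(muRE d) := integral_const_mul _ _
      _ ≤ 2 * ((t / 4) * V) := by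
          gcongr
          exact le_trans (le_abs_self _) s2
  rw [e1]
  rw [abs_le] at h2 s3 ⊢
  constructor
  · linarith [h2.1, s3.1]
  · linarith [h2.2, s3.2]

theorem cnt4 (hd : 4 ≤ d) {p q r s : E d} (hp : AffineIndependent ℝ ![p, q, r, s]) (t : ℝ)
    (ht : 0 < t) : Ev d (fun f g l V => |I4 f l p q r s - ∫ x, g x ^ 4| ≤ t * V) := by
  obtain ⟨C, hC, ε, hε, H⟩ := indep (by omega) ![p, q, r, s] hp (by simpa using hd) t ht
  refine ⟨C, hC, ε, hε, ?_⟩
  intro f g l V h
  have H1 := H f g l V h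
  rw [Fintype.card_fin] at H1
  convert H1 using 3
  unfold I4
  rw [integral_prod]
  · congr 1
    funext R
    congr 1
    funext x
    rw [Fin.prod_univ_four]
    show f (x + l • act R p) * f (x + l • act R q) * (f (x + l • act R r) *
      f (x + l • act R s)) = f (x + l • act R p) * f (x + l • act R q) * f (x + l • act R r) *
      f (x + l • act R s)
    ring
  · refine dom_int (G := fb f l p) (((fb_meas h.f_meas l p).mul (fb_meas h.f_meas l q)).mul
      ((fb_meas h.f_meas l r).mul (fb_meas h.f_meas l s))) (fb_int h.f_int l p) ?_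
    intro z
    have a1 := h.f0 p z
    have a2 := h.f0 q z
    have a3 := h.f0 r z
    have a4 := h.f0 s z
    rw [abs_of_nonneg (mul_nonneg (mul_nonneg a1 a2) (mul_nonneg a3 a4)), mul_assoc]
    refine mul_le_of_le_one_right a1 ?_
    exact mul_le_one₀ (h.f1 _ _) (mul_nonneg a3 a4) (mul_le_one₀ (h.f1 _ _) a4 (h.f1 _ _))

end Pool.Agent.H16.Simp
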