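import Pool.Agent.H16.Simp.Indep

/-!
# Properties of all sufficiently good data; independence with a power of the local density
-/

open MeasureTheory Measure Metric Filter Topology
open scoped RealInnerProductSpace

namespace Pool.Agent.H16.Simp

variable {d : ℕ}

/-- A property that holds for all sufficiently good data. -/
def Ev (d : ℕ) (p : (E d → ℝ) → (E d → ℝ) → ℝ → ℝ → Prop) : Prop :=
  ∃ C : ℝ, 1 ≤ C ∧ ∃ ε : ℝ, 0 < ε ∧ ∀ (f g : E d → ℝ) (l V : ℝ), Good d C ε f g l V →
    p f g l V

theorem Ev.mono {p q : (E d → ℝ) → (E d → ℝ) → ℝ → ℝ → Prop} (hp : Ev d p)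
    (h : ∀ (f g : E d → ℝ) (l V C ε : ℝ), Good d C ε f g l V → p f g l V → q f g l V) :
    Ev d q := by
  obtain ⟨C, hC, ε, hε, H⟩ := hp
  exact ⟨C, hC, ε, hε, fun f g l V hg => h f g l V C ε hg (H f g l V hg)⟩

theorem Ev.and {p q : (E d → ℝ) → (E d → ℝ) → ℝ → ℝ → Prop} (hp : Ev d p) (hq : Ev d q) :
    Ev d (fun f g l V => p f g l V ∧ q f g l V) := by
  obtain ⟨C, hC, ε, hε, H⟩ := hp
  obtain ⟨C', hC', ε', hε', H'⟩ := hq
  refine ⟨max C C', le_max_of_le_left hC, min ε ε', lt_min hε hε', fun f g l V hg => ⟨?_, ?_⟩⟩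
  · exact H f g l V (hg.mono (le_max_left _ _) hC (min_le_left _ _))
  · exact H' f g l V (hg.mono (le_max_right _ _) hC' (min_le_right _ _))

theorem Ev.of_forall {p : (E d → ℝ) → (E d → ℝ) → ℝ → ℝ → Prop}
    (h : ∀ (f g : E d → ℝ) (l V C ε : ℝ), Good d C ε f g l V → p f g l V) : Ev d p :=
  ⟨1, le_rfl, 1, one_pos, fun f g l V hg => h f g l V 1 1 hg⟩

theorem Ev.all_finset {ι : Type} {p : ι → (E d → ℝ) → (E d → ℝ) → ℝ → ℝ → Prop}
    (s : Finset ι) (h : ∀ i ∈ s, Ev d (p i)) : Ev d (fun f g l V => ∀ i ∈ s, p i f g l V) := by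
  classical
  induction s using Finset.induction_on with
  | empty => exact Ev.of_forall (fun f g l V C ε _ i hi => absurd hi (Finset.notMem_empty i))
  | insert a s ha ih =>
      have h1 := ih (fun i hi => h i (Finset.mem_insert_of_mem hi))
      have h2 := h a (Finset.mem_insert_self a s)
      refine (h2.and h1).mono ?_
      intro f g l V C ε _ ⟨h3, h4⟩ i hi
      rcases Finset.mem_insert.mp hi with rfl | hi
      · exact h3
      · exact h4 i hi

theorem Ev.all {ι : Type} [Fintype ι] {p : ι → (E d → ℝ) → (E d → ℝ) → ℝ → ℝ → Prop}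
    (h : ∀ i, Ev d (p i)) : Ev d (fun f g l V => ∀ i, p i f g l V) :=
  (Ev.all_finset Finset.univ (fun i _ => h i)).mono
    (fun _ _ _ _ _ _ _ h1 i => h1 i (Finset.mem_univ i))

/-- Independence, with a power of the local density. -/
theorem corek (hd : 2 ≤ d) (n k : ℕ) (hn : n + 1 ≤ d) (v : ℕ → E d)
    (hv : ∀ i < n, v i ∉ Submodule.span ℝ (v '' {j | j < i})) (s : ℝ) (hs : 0 < s) :
    Ev d (fun f g l V =>
      |∫ z, f z.2 * (∏ i ∈ Finset.range n, fb f l (v i) z) * g z.2 ^ k ∂(muRE d)
        - ∫ x, g x ^ (n + 1 + k)| ≤ s * V) := by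
  set t : ℝ := s / (2 * n + k + 1) with htd
  have hden : (0 : ℝ) < 2 * n + k + 1 := by positivity
  have ht : 0 < t := by positivity
  obtain ⟨m, hm⟩ := exists_nat_gt (2 / t ^ 2)
  have ht2 : 0 < t ^ 2 := by positivity
  have hm0 : (0 : ℝ) < m := lt_trans (by positivity) hm
  have hmN : 0 < m := by exact_mod_cast hm0
  have hm1 : 1 / (m : ℝ) ≤ t ^ 2 / 2 := by
    rw [div_le_iff₀ hm0]
    rw [div_lt_iff₀ ht2] at hm
    linarith
  -- a unit vector
  have h0d : 0 < d := by omega
  set e : E d := EuclideanSpace.single ⟨0, h0d⟩ (1 : ℝ) with he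
  have he0 : e ≠ 0 := by
    rw [← norm_pos_iff, he]
    simp
  obtain ⟨Ue, hUe, hUei⟩ := exists_reflections (⊥ : Submodule ℝ (E d))
    (by rw [finrank_bot]; omega) e (by simpa using he0) m
  have hfr : ∀ k, Module.finrank ℝ (Submodule.span ℝ (v '' {i | i < k})) ≤ k := by
    intro k
    have e1 : v '' {i | i < k} = (((Finset.range k).image v : Finset (E d)) : Set (E d)) := by
      ext x
      simp
    rw [e1]
    calc _ ≤ ((Finset.range k).image v).card := finrank_span_finset_le_card _
      _ ≤ (Finset.range k).card := Finset.card_image_le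
      _ = k := Finset.card_range k
  have hex : ∀ k, k < n → ∃ U : Fin m → Rot d,
      (∀ i, ∀ w ∈ Submodule.span ℝ (v '' {i | i < k}), act (U i) w = w) ∧
      Function.Injective (fun i => act (U i) (v k)) := by
    intro k hk
    apply exists_reflections _ _ _ (hv k hk)
    have := hfr k
    omega
  choose! U hUf hUi using hex
  have hv0 : ∀ k < n, v k ≠ 0 := by
    intro k hk h
    apply hv k hk
    rw [h]
    exact Submodule.zero_mem _
  have hev : ∀ᶠ C : ℝ in atTop, ∀ k ∈ Finset.range n, ‖v k‖ ≤ C ∧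
      (∀ i, 1 / C ≤ ‖act (U k i) (v k)‖ ∧ ‖act (U k i) (v k)‖ ≤ C) ∧
      (∀ i j, i ≠ j → 1 / C ≤ ‖act (U k i) (v k) - act (U k j) (v k)‖ ∧
        ‖act (U k i) (v k) - act (U k j) (v k)‖ ≤ C) := by
    rw [Finset.eventually_all]
    intro k hk
    rw [Finset.mem_range] at hk
    exact ev_all (v k) (hv0 k hk) (U k) (hUi k hk)
  obtain ⟨C, hC1, hCe, hCv⟩ := ((eventually_ge_atTop (1 : ℝ)).and
    ((ev_all e he0 Ue hUei).and hev)).exists
  refine ⟨C, hC1, t ^ 2 / 6, by positivity, ?_⟩
  intro f g l V h
  have hε : 0 ≤ t ^ 2 / 6 := by positivity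
  have htm : 1 / (m : ℝ) + 3 * (t ^ 2 / 6) ≤ t ^ 2 := by linarith
  have hV := h.V_pos
  have hfm : Measurable (fun z : Rot d × E d => f z.2) := h.f_meas.comp measurable_snd
  have hgm : Measurable (fun z : Rot d × E d => g z.2) := h.g_meas.comp measurable_snd
  have hpm : ∀ k, Measurable (fun z => ∏ i ∈ Finset.range k, fb f l (v i) z) := by
    intro k
    exact Finset.measurable_prod _ fun i _ => fb_meas h.f_meas l (v i)
  have hp0 : ∀ k z, 0 ≤ ∏ i ∈ Finset.range k, fb f l (v i) z := fun k z =>
    Finset.prod_nonneg fun i _ => h.f0 _ _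
  have hp1 : ∀ k z, ∏ i ∈ Finset.range k, fb f l (v i) z ≤ 1 := fun k z =>
    Finset.prod_le_one (fun i _ => h.f0 _ _) fun i _ => h.f1 _ _
  have key : ∀ j, j ≤ n →
      |∫ z, f z.2 * (∏ i ∈ Finset.range j, fb f l (v i) z) * g z.2 ^ (n - j + k) ∂(muRE d) -
        ∫ x, g x ^ (n + 1 + k)| ≤ ((n + k : ℕ) + 1) * t * V + j * t * V := by
    intro j
    induction j with
    | zero =>
        intro _
        have := h.base hε hmN ht htm e Ue hCe.1 hCe.2.1 hCe.2.2 (n + k)
        have e1 : ∫ z, f z.2 * (∏ i ∈ Finset.range 0, fb f l (v i) z) * g z.2 ^ (n - 0 + k)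
            ∂(muRE d) = ∫ x, f x * g x ^ (n + k) := by
          rw [← integral_snd (fun x => f x * g x ^ (n + k))]
          simp
        have e2 : n + 1 + k = n + k + 1 := by omega
        rw [e1, e2]
        simpa using this
    | succ j ih =>
        intro hj
        have ih' := ih (by omega)
        set Φ : Rot d × E d → ℝ := fun z =>
          f z.2 * (∏ i ∈ Finset.range j, fb f l (v i) z) * g z.2 ^ (n - (j + 1) + k) with hΦ
        have hΦm : Measurable Φ := (hfm.mul (hpm j)).mul (hgm.pow_const _)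
        have hg0 : ∀ z : Rot d × E d, 0 ≤ g z.2 ^ (n - (j + 1) + k) := fun z =>
          pow_nonneg (h.g_nonneg _) _
        have hg1 : ∀ z : Rot d × E d, g z.2 ^ (n - (j + 1) + k) ≤ 1 := fun z =>
          pow_le_one₀ (h.g_nonneg _) (h.g_le_one _)
        have hΦ0 : ∀ z, 0 ≤ Φ z := fun z =>
          mul_nonneg (mul_nonneg (h.f_nonneg _) (hp0 j z)) (hg0 z)
        have hΦf : ∀ z, Φ z ≤ f z.2 := by
          intro z
          calc Φ z ≤ f z.2 * 1 * 1 := by
                apply mul_le_mul _ (hg1 z) (hg0 z) (by simpa using h.f_nonneg _)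
                exact mul_le_mul_of_nonneg_left (hp1 j z) (h.f_nonneg _)
            _ = f z.2 := by ring
        have hΦi : Integrable Φ (muRE d) := by
          refine dom_int hΦm (snd_int h.f_int) ?_
          intro z
          rw [abs_of_nonneg (hΦ0 z)]
          exact hΦf z
        have hkn : j < n := by omega
        have hCk := hCv j (Finset.mem_range.mpr hkn)
        have st := h.step hε hmN ht htm (v j) (U j) hCk.2.1 hCk.2.2 Φ hΦm hΦ0
          (fun z => (hΦf z).trans (h.f_le_one _)) hΦi
          (by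
            calc ∫ z, Φ z ∂(muRE d) ≤ ∫ z : Rot d × E d, f z.2 ∂(muRE d) :=
                  integral_mono hΦi (snd_int h.f_int) hΦf
              _ = ∫ x, f x := integral_snd f
              _ ≤ V := h.f_mass)
          (by
            intro i z
            have e1 : ∀ a ∈ Finset.range j, fb f l (v a) (z.1 * U j i, z.2) =
                fb f l (v a) z := by
              intro a ha
              have : act (U j i) (v a) = v a := by
                apply hUf j hkn i
                apply Submodule.subset_span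
                exact ⟨a, Finset.mem_range.mp ha, rfl⟩
              unfold fb
              simp only [act_mul, this]
            simp only [hΦ]
            rw [Finset.prod_congr rfl e1])
        have e2 : ∫ z, Φ z * fb f l (v j) z ∂(muRE d) =
            ∫ z, f z.2 * (∏ i ∈ Finset.range (j + 1), fb f l (v i) z) *
              g z.2 ^ (n - (j + 1) + k) ∂(muRE d) := by
          refine integral_congr_ae (Eventually.of_forall fun z => ?_)
          simp only [hΦ, Finset.prod_range_succ]
          ring
        have e3 : ∫ z, Φ z * g z.2 ∂(muRE d) =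
            ∫ z, f z.2 * (∏ i ∈ Finset.range j, fb f l (v i) z) *
              g z.2 ^ (n - j + k) ∂(muRE d) := by
          refine integral_congr_ae (Eventually.of_forall fun z => ?_)
          have e4 : n - j + k = (n - (j + 1) + k) + 1 := by omega
          simp only [hΦ]
          rw [e4, pow_succ]
          ring
        rw [e2, e3] at st
        rw [abs_le] at st ih' ⊢
        push_cast at ih' ⊢
        constructor
        · linarith [st.1, ih'.1]
        · linarith [st.2, ih'.2]
  have := key n le_rfl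
  simp only [Nat.sub_self, zero_add] at this
  refine this.trans (le_of_eq ?_)
  have : s = t * (2 * n + k + 1) := by
    rw [htd]
    field_simp
  rw [this]
  push_cast
  ring

end Pool.Agent.H16.Simp
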