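import Pool.Agent.H16.Simp4.Geo
import Pool.Agent.H34.Simp3.Fun

/-!
# Rotations of three-dimensional space and the standard position of a tetrahedron
-/

open MeasureTheory Measure Metric Filter Topology
open scoped RealInnerProductSpace

namespace Pool.Agent.H16.Simp

open Pool.Agent.H34.Simp3

/-- A norm-preserving linear map as a rotation. -/
noncomputable def mk3 (f : E 3 →ₗ[ℝ] E 3) (h : ∀ w, ‖f w‖ = ‖w‖) : Rot 3 :=
  ofIso (LinearIsometry.toLinearIsometryEquiv ⟨f, h⟩ rfl)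

theorem act_mk3 (f : E 3 →ₗ[ℝ] E 3) (h : ∀ w, ‖f w‖ = ‖w‖) (w : E 3) :
    act (mk3 f h) w = f w := rfl

theorem rot_ext {d : ℕ} {R S : Rot d} (h : ∀ w, act R w = act S w) : R = S :=
  Subtype.ext (ContinuousLinearMap.ext h)

theorem nsq3 (w : E 3) : ‖w‖ ^ 2 = w 0 ^ 2 + w 1 ^ 2 + w 2 ^ 2 := by
  rw [EuclideanSpace.real_norm_sq_eq, Fin.sum_univ_three]

theorem norm_eq3 {v w : E 3} (h : v 0 ^ 2 + v 1 ^ 2 + v 2 ^ 2 = w 0 ^ 2 + w 1 ^ 2 + w 2 ^ 2) :
    ‖v‖ = ‖w‖ := by
  have h1 : ‖v‖ ^ 2 = ‖w‖ ^ 2 := by rw [nsq3, nsq3, h]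
  exact (pow_left_inj₀ (norm_nonneg _) (norm_nonneg _) two_ne_zero).1 h1

/-- The linear map of a rotation about the third axis. -/
noncomputable def zlin (u v : ℝ) : E 3 →ₗ[ℝ] E 3 where
  toFun w := !₂[u * w 0 - v * w 1, v * w 0 + u * w 1, w 2]
  map_add' x y := by
    ext i
    fin_cases i <;> simp <;> ring
  map_smul' c x := by
    ext i
    fin_cases i <;> simp <;> ring

/-- The rotation about the third axis. -/
noncomputable def ru (u v : ℝ) (h : u ^ 2 + v ^ 2 = 1) : Rot 3 :=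
  mk3 (zlin u v) (by
    intro w
    apply norm_eq3
    simp only [zlin, LinearMap.coe_mk, AddHom.coe_mk]
    simp
    linear_combination (w 0 ^ 2 + w 1 ^ 2) * h)

theorem act_ru (u v : ℝ) (h : u ^ 2 + v ^ 2 = 1) (w : E 3) :
    act (ru u v h) w = !₂[u * w 0 - v * w 1, v * w 0 + u * w 1, w 2] := rfl

/-- The rotation by `s` about the third axis. -/
noncomputable def rz (s : ℝ) : Rot 3 := ru (Real.cos s) (Real.sin s) (Real.cos_sq_add_sin_sq s)

theorem act_rz (s : ℝ) (w : E 3) : act (rz s) w =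
    !₂[Real.cos s * w 0 - Real.sin s * w 1, Real.sin s * w 0 + Real.cos s * w 1, w 2] := rfl

theorem rz_add (s t : ℝ) : rz (s + t) = rz s * rz t := by
  apply rot_ext
  intro w
  rw [act_mul, act_rz, act_rz, act_rz]
  ext i
  fin_cases i <;> simp [Real.cos_add, Real.sin_add] <;> ring

theorem rz_zero : rz 0 = 1 := by
  apply rot_ext
  intro w
  rw [act_rz, act_one]
  ext i
  fin_cases i <;> simp

/-- The linear map of a rotation about the first axis. -/
noncomputable def xlin (a b : ℝ) : E 3 →ₗ[ℝ] E 3 where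
  toFun w := !₂[w 0, a * w 1 + b * w 2, -b * w 1 + a * w 2]
  map_add' x y := by
    ext i
    fin_cases i <;> simp <;> ring
  map_smul' c x := by
    ext i
    fin_cases i <;> simp <;> ring

/-- The rotation about the first axis. -/
noncomputable def ra (a b : ℝ) (h : a ^ 2 + b ^ 2 = 1) : Rot 3 :=
  mk3 (xlin a b) (by
    intro w
    apply norm_eq3
    simp only [xlin, LinearMap.coe_mk, AddHom.coe_mk]
    simp
    linear_combination (w 1 ^ 2 + w 2 ^ 2) * h)

theorem act_ra (a b : ℝ) (h : a ^ 2 + b ^ 2 = 1) (w : E 3) :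
    act (ra a b h) w = !₂[w 0, a * w 1 + b * w 2, -b * w 1 + a * w 2] := rfl

theorem ra_inv (a b : ℝ) (h : a ^ 2 + b ^ 2 = 1) (h' : a ^ 2 + (-b) ^ 2 = 1) :
    (ra a b h)⁻¹ = ra a (-b) h' := by
  rw [inv_eq_iff_mul_eq_one]
  apply rot_ext
  intro w
  rw [act_mul, act_ra, act_ra, act_one]
  ext i
  fin_cases i
  · simp
  · simp
    linear_combination w 1 * h
  · simp
    linear_combination w 2 * h

theorem act_ra_inv (a b : ℝ) (h : a ^ 2 + b ^ 2 = 1) (w : E 3) :
    act (ra a b h)⁻¹ w = !₂[w 0, a * w 1 - b * w 2, b * w 1 + a * w 2] := by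
  rw [ra_inv a b h (by rw [neg_sq]; exact h), act_ra]
  ext i
  fin_cases i <;> simp <;> ring

/-- The rotation about the line with direction `(0, b, a)`. -/
noncomputable def rk (a b : ℝ) (h : a ^ 2 + b ^ 2 = 1) (t : ℝ) : Rot 3 :=
  ra a b h * rz t * (ra a b h)⁻¹

theorem rk_add (a b : ℝ) (h : a ^ 2 + b ^ 2 = 1) (s t : ℝ) :
    rk a b h (s + t) = rk a b h s * rk a b h t := by
  unfold rk
  rw [rz_add]
  group

theorem rk_zero (a b : ℝ) (h : a ^ 2 + b ^ 2 = 1) : rk a b h 0 = 1 := by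
  unfold rk
  rw [rz_zero, mul_one, mul_inv_cancel]

theorem act_rk (a b : ℝ) (h : a ^ 2 + b ^ 2 = 1) (t : ℝ) (w : E 3) : act (rk a b h t) w =
    !₂[Real.cos t * w 0 - Real.sin t * (a * w 1 - b * w 2),
      a * (Real.sin t * w 0 + Real.cos t * (a * w 1 - b * w 2)) + b * (b * w 1 + a * w 2),
      -b * (Real.sin t * w 0 + Real.cos t * (a * w 1 - b * w 2)) + a * (b * w 1 + a * w 2)] := by
  unfold rk
  rw [act_mul, act_mul, act_ra_inv, act_rz, act_ra]
  rfl

/-- The rotation by `t` about the line `L2`. -/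
noncomputable def K (δ a b : ℝ) (h : a ^ 2 + b ^ 2 = 1) (t : ℝ) (v : E 3) : E 3 :=
  mv (rk a b h t) !₂[δ, 0, 0] v

theorem K_rod (δ a b : ℝ) (h : a ^ 2 + b ^ 2 = 1) (t p : ℝ) :
    K δ a b h t !₂[0, 0, p] = !₂[c1 δ a b p t, c2 δ a b p t, c3 δ a b p t] := by
  unfold K mv
  rw [act_rk, act_rk]
  ext i
  fin_cases i <;> simp [c1, c2, c3] <;> ring

theorem K_fix (δ a b : ℝ) (h : a ^ 2 + b ^ 2 = 1) (t m : ℝ) :
    K δ a b h t !₂[δ, m * b, m * a] = !₂[δ, m * b, m * a] := by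
  unfold K mv
  rw [act_rk, act_rk]
  ext i
  fin_cases i
  · show (Real.cos t * δ - Real.sin t * (a * (m * b) - b * (m * a))) +
      (δ - (Real.cos t * δ - Real.sin t * (a * 0 - b * 0))) = δ
    ring
  · simp
    linear_combination (m * b) * h
  · simp
    linear_combination (m * a) * h

theorem K_add (δ a b : ℝ) (h : a ^ 2 + b ^ 2 = 1) (s t : ℝ) (v : E 3) :
    K δ a b h s (K δ a b h t v) = K δ a b h (s + t) v := by
  unfold K
  rw [rk_add, mv_eq, mv_eq, mv_eq, act_mul]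
  congr 2
  abel

theorem K_zero (δ a b : ℝ) (h : a ^ 2 + b ^ 2 = 1) (v : E 3) : K δ a b h 0 v = v := by
  unfold K
  rw [rk_zero, mv_eq, act_one]
  abel

theorem continuous_vec3 {X : Type*} [TopologicalSpace X] {f g k : X → ℝ} (hf : Continuous f)
    (hg : Continuous g) (hk : Continuous k) : Continuous (fun x => (!₂[f x, g x, k x] : E 3)) := by
  refine (PiLp.continuous_toLp 2 _).comp ?_
  refine continuous_pi fun i => ?_
  fin_cases i
  · exact hf
  · exact hg
  · exact hk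

theorem continuous_coord {X : Type*} [TopologicalSpace X] {f : X → E 3} (hf : Continuous f)
    (i : Fin 3) : Continuous (fun x => f x i) :=
  (continuous_apply i).comp ((PiLp.continuous_ofLp 2 _).comp hf)

theorem continuous_rz : Continuous (fun x : ℝ × E 3 => act (rz x.1) x.2) := by
  simp only [act_rz]
  have h0 := continuous_coord (X := ℝ × E 3) continuous_snd 0
  have h1 := continuous_coord (X := ℝ × E 3) continuous_snd 1
  have h2 := continuous_coord (X := ℝ × E 3) continuous_snd 2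
  have hc : Continuous (fun x : ℝ × E 3 => Real.cos x.1) := Real.continuous_cos.comp continuous_fst
  have hs : Continuous (fun x : ℝ × E 3 => Real.sin x.1) := Real.continuous_sin.comp continuous_fst
  exact continuous_vec3 ((hc.mul h0).sub (hs.mul h1)) ((hs.mul h0).add (hc.mul h1)) h2

theorem continuous_rk (a b : ℝ) (h : a ^ 2 + b ^ 2 = 1) :
    Continuous (fun x : ℝ × E 3 => act (rk a b h x.1) x.2) := by
  simp only [act_rk]
  have h0 := continuous_coord (X := ℝ × E 3) continuous_snd 0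
  have h1 := continuous_coord (X := ℝ × E 3) continuous_snd 1
  have h2 := continuous_coord (X := ℝ × E 3) continuous_snd 2
  have hc : Continuous (fun x : ℝ × E 3 => Real.cos x.1) := Real.continuous_cos.comp continuous_fst
  have hs : Continuous (fun x : ℝ × E 3 => Real.sin x.1) := Real.continuous_sin.comp continuous_fst
  refine continuous_vec3 ?_ ?_ ?_ <;> fun_prop

theorem continuous_K (δ a b : ℝ) (h : a ^ 2 + b ^ 2 = 1) :
    Continuous (fun x : ℝ × E 3 => K δ a b h x.1 x.2) := by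
  unfold K mv
  have h1 : Continuous (fun x : ℝ × E 3 => act (rk a b h x.1) (!₂[δ, 0, 0] : E 3)) :=
    (continuous_rk a b h).comp (continuous_fst.prodMk continuous_const)
  exact (continuous_rk a b h).add (continuous_const.sub h1)

theorem dist_rods (δ a b : ℝ) (h : a ^ 2 + b ^ 2 = 1) (u v s t1 t2 : ℝ) :
    ‖K δ a b h t2 !₂[0, 0, u] - act (rz s) (K δ a b h t1 !₂[0, 0, v])‖ ^ 2 =
      dsq δ a b u v s t1 t2 := by
  rw [K_rod, K_rod, act_rz, nsq3]
  simp [dsq]

/-- Coefficients of an affine dependence. -/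
theorem aff4_coef {d : ℕ} {x y s1 s2 : E d} (h : AffineIndependent ℝ ![x, y, s1, s2]) :
    ∀ a b c e : ℝ, a + b + c + e = 0 → a • x + b • y + c • s1 + e • s2 = 0 →
      a = 0 ∧ b = 0 ∧ c = 0 ∧ e = 0 := by
  rw [affineIndependent_iff_of_fintype] at h
  intro a b c e h1 h2
  have h3 : ∑ i, ![a, b, c, e] i = 0 := by
    rw [Fin.sum_univ_four]
    exact h1
  have h4 := h ![a, b, c, e] h3 (by
    rw [Finset.univ.weightedVSub_eq_linear_combination h3, Fin.sum_univ_four]
    exact h2)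
  exact ⟨h4 0, h4 1, h4 2, h4 3⟩

theorem frame3 {x y s1 s2 : E 3} (h : AffineIndependent ℝ ![x, y, s1, s2]) :
    ∃ (U : Rot 3) (t : E 3) (δ a b p q m1 m2 : ℝ), a ^ 2 + b ^ 2 = 1 ∧ b ≠ 0 ∧ δ ≠ 0 ∧ p ≠ q ∧
      act U x + t = !₂[0, 0, p] ∧ act U y + t = !₂[0, 0, q] ∧
      act U s1 + t = !₂[δ, m1 * b, m1 * a] ∧ act U s2 + t = !₂[δ, m2 * b, m2 * a] := by
  have key := aff4_coef h
  set D : E 3 := y - x with hD
  set S : E 3 := s2 - s1 with hS
  have hD0 : D ≠ 0 := by
    intro h0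
    have := (key (-1) 1 0 0 (by norm_num) (by
      rw [hD] at h0
      rw [← h0]
      module)).2.1
    exact one_ne_zero this
  have hDn : 0 < ‖D‖ := norm_pos_iff.2 hD0
  set ω : E 3 := (1 / ‖D‖) • D with hω
  have hωn : ‖ω‖ = 1 := by
    rw [hω, norm_smul, Real.norm_of_nonneg (by positivity)]
    field_simp
  have hDω : D = ‖D‖ • ω := by
    rw [hω, smul_smul]
    field_simp
    simp
  set e' : E 3 := S - ⟪ω, S⟫ • ω with he'
  have he0 : e' ≠ 0 := by
    intro h0
    rw [he', sub_eq_zero, hω, smul_smul] at h0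
    have := (key (⟪ω, S⟫ * (1 / ‖D‖)) (-(⟪ω, S⟫ * (1 / ‖D‖))) (-1) 1 (by ring) (by
      have h1 : (⟪ω, S⟫ * (1 / ‖D‖)) • x + (-(⟪ω, S⟫ * (1 / ‖D‖))) • y + (-1 : ℝ) • s1 +
          (1 : ℝ) • s2 = S - (⟪ω, S⟫ * (1 / ‖D‖)) • D := by
        rw [hS, hD]
        module
      rw [h1, sub_eq_zero]
      rw [hω]
      exact h0)).2.2.2
    exact one_ne_zero this
  have hen : 0 < ‖e'‖ := norm_pos_iff.2 he0
  set e2 : E 3 := (1 / ‖e'‖) • e' with he2
  have he2n : ‖e2‖ = 1 := by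
    rw [he2, norm_smul, Real.norm_of_nonneg (by positivity)]
    field_simp
  have hωe' : ⟪ω, e'⟫ = 0 := by
    rw [he', inner_sub_right, inner_smul_right, real_inner_self_eq_norm_sq, hωn]
    ring
  have hωe2 : ⟪ω, e2⟫ = 0 := by
    rw [he2, inner_smul_right, hωe', mul_zero]
  have he2ω : ⟪e2, ω⟫ = 0 := by rw [real_inner_comm]; exact hωe2
  have hSe : S = ‖e'‖ • e2 + ⟪ω, S⟫ • ω := by
    have h1 : ‖e'‖ • e2 = e' := by
      rw [he2, smul_smul]
      field_simp
      simp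
    rw [h1, he']
    abel
  have hS0 : S ≠ 0 := by
    intro h0
    apply he0
    rw [he', h0]
    simp
  have hSn : 0 < ‖S‖ := norm_pos_iff.2 hS0
  -- the basis
  have hon : Orthonormal ℝ (({1, 2} : Set (Fin 3)).domRestrict ![0, e2, ω]) := by
    constructor
    · rintro ⟨i, hi⟩
      simp only [Set.mem_insert_iff, Set.mem_singleton_iff] at hi
      rcases hi with rfl | rfl
      · exact he2n
      · exact hωn
    · rintro ⟨i, hi⟩ ⟨j, hj⟩ hij
      simp only [Set.mem_insert_iff, Set.mem_singleton_iff] at hi hj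
      have hij' : i ≠ j := fun e => hij (Subtype.ext e)
      rcases hi with rfl | rfl <;> rcases hj with rfl | rfl
      · exact absurd rfl hij'
      · exact he2ω
      · exact hωe2
      · exact absurd rfl hij'
  obtain ⟨B, hB⟩ := hon.exists_orthonormalBasis_extension_of_card_eq (by simp)
  have hB1 : B 1 = e2 := hB 1 (by simp)
  have hB2 : B 2 = ω := hB 2 (by simp)
  set U : Rot 3 := ofIso B.repr with hU
  have hact : ∀ v : E 3, act U v = !₂[⟪B 0, v⟫, ⟪e2, v⟫, ⟪ω, v⟫] := by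
    intro v
    have : act U v = B.repr v := rfl
    rw [this]
    ext i
    rw [OrthonormalBasis.repr_apply_apply]
    fin_cases i
    · rfl
    · show ⟪B 1, v⟫ = _
      rw [hB1]
      rfl
    · show ⟪B 2, v⟫ = _
      rw [hB2]
      rfl
  have hn1 : ⟪B 0, e2⟫ = 0 := by
    rw [← hB1]
    exact B.orthonormal.2 (by decide)
  have hn2 : ⟪B 0, ω⟫ = 0 := by
    rw [← hB2]
    exact B.orthonormal.2 (by decide)
  set δ : ℝ := ⟪B 0, s1 - x⟫ with hδ
  set β : ℝ := ⟪e2, s1 - x⟫ with hβ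
  set γ : ℝ := ⟪ω, s1 - x⟫ with hγ
  set a : ℝ := ⟪ω, S⟫ / ‖S‖ with ha
  set b : ℝ := ‖e'‖ / ‖S‖ with hb
  have hb0 : b ≠ 0 := by positivity
  have hexp : ∀ v : E 3, v = ⟪B 0, v⟫ • B 0 + ⟪e2, v⟫ • e2 + ⟪ω, v⟫ • ω := by
    intro v
    have := B.sum_repr v
    rw [Fin.sum_univ_three, B.repr_apply_apply, B.repr_apply_apply, B.repr_apply_apply, hB1,
      hB2] at this
    exact this.symm
  have hab : a ^ 2 + b ^ 2 = 1 := by
    have h1 : ‖S‖ ^ 2 = ‖e'‖ ^ 2 + ⟪ω, S⟫ ^ 2 := by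
      have n1 : ‖‖e'‖ • e2‖ = ‖e'‖ := by
        rw [norm_smul, he2n, Real.norm_of_nonneg hen.le, mul_one]
      have n2 : ‖⟪ω, S⟫ • ω‖ ^ 2 = ⟪ω, S⟫ ^ 2 := by
        rw [norm_smul, hωn, mul_one, Real.norm_eq_abs, sq_abs]
      nth_rewrite 1 [hSe]
      rw [norm_add_sq_real, inner_smul_left, inner_smul_right, he2ω, n1, n2]
      simp only [mul_zero, add_zero]
    rw [ha, hb]
    field_simp
    linarith
  have hδ0 : δ ≠ 0 := by
    intro h0
    have h1 := hexp (s1 - x)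
    rw [← hδ, ← hβ, ← hγ, h0, zero_smul, zero_add] at h1
    have h2 : e2 = (1 / ‖e'‖) • S - ((1 / ‖e'‖) * ⟪ω, S⟫ * (1 / ‖D‖)) • D := by
      have g1 : (⟪ω, S⟫ * (1 / ‖D‖)) • D = ⟪ω, S⟫ • ω := by
        rw [mul_smul, ← hω]
      rw [mul_assoc, mul_smul, g1, ← smul_sub, ← he']
    set lam : ℝ := β * (1 / ‖e'‖) with hlam
    set mu : ℝ := γ * (1 / ‖D‖) - β * ((1 / ‖e'‖) * ⟪ω, S⟫ * (1 / ‖D‖)) with hmu
    have h3 : s1 - x = lam • S + mu • D := by
      have g2 : γ • ω = (γ * (1 / ‖D‖)) • D := by rw [mul_smul, ← hω]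
      rw [h1, h2, g2, hlam, hmu]
      module
    have h4 := key (-1 + mu) (-mu) (1 + lam) (-lam) (by ring) (by
      have h5 : (-1 + mu) • x + (-mu) • y + (1 + lam) • s1 + (-lam) • s2 =
          (s1 - x) - (lam • S + mu • D) := by
        rw [hS, hD]
        module
      rw [h5, h3, sub_self])
    have h5 := h4.1
    have h6 := h4.2.1
    linarith
  set κ : ℝ := γ - β * a / b with hκ
  set m1 : ℝ := β / b with hm1
  clear_value e2 ω
  refine ⟨U, -act U (x + κ • ω), δ, a, b, -κ, -κ + ‖D‖, m1, m1 + ‖S‖, hab, hb0, hδ0, ?_, ?_, ?_,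
    ?_, ?_⟩
  · intro h0
    linarith
  · rw [← act_neg, ← act_add, hact]
    have h1 : x + -(x + κ • ω) = (-κ) • ω := by module
    rw [h1]
    simp only [inner_smul_right, hn2, he2ω, real_inner_self_eq_norm_sq, hωn]
    ext i
    fin_cases i <;> simp
  · rw [← act_neg, ← act_add, hact]
    have h1 : y + -(x + κ • ω) = (-κ + ‖D‖) • ω := by
      rw [add_smul, ← hDω, hD]
      module
    rw [h1]
    simp only [inner_smul_right, hn2, he2ω, real_inner_self_eq_norm_sq, hωn]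
    ext i
    fin_cases i <;> simp
  · rw [← act_neg, ← act_add, hact]
    have h1 : s1 + -(x + κ • ω) = (s1 - x) - κ • ω := by module
    rw [h1]
    simp only [inner_sub_right, inner_smul_right, hn2, he2ω, real_inner_self_eq_norm_sq, hωn]
    have e1 : ⟪B 0, s1⟫ - ⟪B 0, x⟫ = δ := by rw [hδ, inner_sub_right]
    have e2' : ⟪e2, s1⟫ - ⟪e2, x⟫ = β := by rw [hβ, inner_sub_right]
    have e3 : ⟪ω, s1⟫ - ⟪ω, x⟫ = γ := by rw [hγ, inner_sub_right]
    rw [e1, e2', e3]
    ext i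
    fin_cases i
    · simp
    · simp [hm1]
      field_simp
    · simp [hm1, hκ]
      field_simp
  · rw [← act_neg, ← act_add, hact]
    have h1 : s2 + -(x + κ • ω) = (s1 - x) - κ • ω + (‖e'‖ • e2 + ⟪ω, S⟫ • ω) := by
      rw [← hSe, hS]
      module
    rw [h1]
    have he2s : ⟪e2, e2⟫ = 1 := by rw [real_inner_self_eq_norm_sq, he2n]; norm_num
    have hωs : ⟪ω, ω⟫ = 1 := by rw [real_inner_self_eq_norm_sq, hωn]; norm_num
    have e1 : ⟪B 0, (s1 - x) - κ • ω + (‖e'‖ • e2 + ⟪ω, S⟫ • ω)⟫ = δ := by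
      rw [inner_add_right, inner_sub_right, inner_add_right, inner_smul_right, inner_smul_right,
        inner_smul_right, hn1, hn2, ← hδ]
      ring
    have e2' : ⟪e2, (s1 - x) - κ • ω + (‖e'‖ • e2 + ⟪ω, S⟫ • ω)⟫ = β + ‖e'‖ := by
      rw [inner_add_right, inner_sub_right, inner_add_right, inner_smul_right, inner_smul_right,
        inner_smul_right, he2ω, he2s, ← hβ]
      ring
    have e3 : ⟪ω, (s1 - x) - κ • ω + (‖e'‖ • e2 + ⟪ω, S⟫ • ω)⟫ = γ - κ + ⟪ω, S⟫ := by
      rw [inner_add_right, inner_sub_right, inner_add_right, inner_smul_right, inner_smul_right,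
        inner_smul_right, hωe2, hωs, ← hγ]
      ring
    rw [e1, e2', e3]
    have hSb : ‖S‖ * b = ‖e'‖ := by
      rw [hb]
      field_simp
    have hSa : ‖S‖ * a = ⟪ω, S⟫ := by
      rw [ha]
      field_simp
    ext i
    fin_cases i
    · simp
    · show β + ‖e'‖ = (m1 + ‖S‖) * b
      rw [add_mul, hSb, hm1]
      field_simp
    · show γ - κ + ⟪ω, S⟫ = (m1 + ‖S‖) * a
      rw [add_mul, hSa, hm1, hκ]
      ring

end Pool.Agent.H16.Simp
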