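import Pool.Agent.H16.Simp4.Row
import Pool.Agent.H16.Simp.Main

/-!
# Simplices in sets of positive upper density, dimension at least four
-/

open MeasureTheory Measure Metric Filter Topology
open scoped RealInnerProductSpace

namespace Pool.Agent.H16.Simp

variable {d : ℕ}

/-- Replacement of the pair by the square of the local density. -/
theorem stepA {W : Submodule ℝ (E d)} {u z x y : E d} (h : Frame W u z) (n : ℕ) (v : ℕ → E d)
    (hv : ∀ i < n, v i ∈ W) (τ : ℝ) (hτ : 0 < τ) {m : ℕ} (hm : 0 < m)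
    (hrow : Ev d (fun f g l V => ∀ i : Fin m, ∑ j : Fin m,
      ∫ z', Qf f g l (act (rf u z i) x) (act (rf u z i) y) z' *
        Qf f g l (act (rf u z j) x) (act (rf u z j) y) z' ∂(muRE d) ≤ m * (τ ^ 2 * V))) :
    Ev d (fun f g l V =>
      |∫ z, (f z.2 * ∏ i ∈ Finset.range n, fb f l (v i) z) * (fb f l x z * fb f l y z)
          ∂(muRE d) -
        ∫ z, f z.2 * (∏ i ∈ Finset.range n, fb f l (v i) z) * g z.2 ^ 2 ∂(muRE d)| ≤
        τ * V) := by
  refine hrow.mono ?_
  intro f g l V C ε hg hr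
  have hV := hg.V_pos
  have hm' : (0 : ℝ) < m := by exact_mod_cast hm
  set F : Rot d × E d → ℝ := fun z => f z.2 * ∏ i ∈ Finset.range n, fb f l (v i) z with hF
  have hfm : Measurable (fun z : Rot d × E d => f z.2) := hg.f_meas.comp measurable_snd
  have hgm : Measurable (fun z : Rot d × E d => g z.2) := hg.g_meas.comp measurable_snd
  have hFm : Measurable F := hfm.mul (Finset.measurable_prod _ fun i _ =>
    fb_meas hg.f_meas l (v i))
  have hp0 : ∀ z, 0 ≤ ∏ i ∈ Finset.range n, fb f l (v i) z := fun z =>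
    Finset.prod_nonneg fun i _ => hg.f0 _ _
  have hp1 : ∀ z, ∏ i ∈ Finset.range n, fb f l (v i) z ≤ 1 := fun z =>
    Finset.prod_le_one (fun i _ => hg.f0 _ _) fun i _ => hg.f1 _ _
  have hF0 : ∀ z, 0 ≤ F z := fun z => mul_nonneg (hg.f_nonneg _) (hp0 z)
  have hFf : ∀ z, F z ≤ f z.2 := fun z => mul_le_of_le_one_right (hg.f_nonneg _) (hp1 z)
  have hF1 : ∀ z, F z ≤ 1 := fun z => (hFf z).trans (hg.f_le_one _)
  have hFi : Integrable F (muRE d) := by
    refine dom_int hFm (snd_int hg.f_int) ?_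
    intro z
    rw [abs_of_nonneg (hF0 z)]
    exact hFf z
  have hFV : ∫ z, F z ∂(muRE d) ≤ V := by
    calc ∫ z, F z ∂(muRE d) ≤ ∫ z : Rot d × E d, f z.2 ∂(muRE d) :=
          integral_mono hFi (snd_int hg.f_int) hFf
      _ = ∫ x, f x := integral_snd f
      _ ≤ V := hg.f_mass
  -- invariance
  have hinv : ∀ (j : ℕ) (z' : Rot d × E d), F (z'.1 * rf u z j, z'.2) = F z' := by
    intro j z'
    have e1 : ∀ a ∈ Finset.range n, fb f l (v a) (z'.1 * rf u z j, z'.2) =
        fb f l (v a) z' := by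
      intro a ha
      have : act (rf u z j) (v a) = v a := h.fix j (hv a (Finset.mem_range.mp ha))
      unfold fb
      simp only [act_mul, this]
    simp only [hF]
    rw [Finset.prod_congr rfl e1]
  have iFff : ∀ p q, Integrable (fun z => F z * (fb f l p z * fb f l q z)) (muRE d) := by
    intro p q
    refine dom_int (G := F) (hFm.mul ((fb_meas hg.f_meas l p).mul (fb_meas hg.f_meas l q)))
      hFi ?_
    intro z
    have a1 := hg.f0 p z
    have a2 := hg.f0 q z
    rw [abs_of_nonneg (mul_nonneg (hF0 z) (mul_nonneg a1 a2))]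
    exact mul_le_of_le_one_right (hF0 z) (mul_le_one₀ (hg.f1 _ _) a2 (hg.f1 _ _))
  have iFg : Integrable (fun z => F z * g z.2 ^ 2) (muRE d) := by
    refine dom_int (G := F) (hFm.mul (hgm.pow_const 2)) hFi ?_
    intro z
    rw [abs_of_nonneg (mul_nonneg (hF0 z) (sq_nonneg _))]
    exact mul_le_of_le_one_right (hF0 z) (pow_le_one₀ (hg.g_nonneg _) (hg.g_le_one _))
  have e1 : ∀ j : ℕ, ∫ z, F z * (fb f l x z * fb f l y z) ∂(muRE d) =
      ∫ z', F z' * (fb f l (act (rf u z j) x) z' * fb f l (act (rf u z j) y) z') ∂(muRE d) := by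
    intro j
    rw [← integral_right (rf u z j) (fun z => F z * (fb f l x z * fb f l y z))
      (hFm.mul ((fb_meas hg.f_meas l x).mul (fb_meas hg.f_meas l y)))]
    refine integral_congr_ae (Eventually.of_forall fun z' => ?_)
    show F (z'.1 * rf u z j, z'.2) * (fb f l x (z'.1 * rf u z j, z'.2) *
      fb f l y (z'.1 * rf u z j, z'.2)) = _
    rw [hinv]
    rfl
  set Q : Fin m → Rot d × E d → ℝ := fun j =>
    Qf f g l (act (rf u z j) x) (act (rf u z j) y) with hQ
  obtain ⟨hDi, hD⟩ := avg_sq (μ := muRE d) Q (fun j j' => hg.QQ_int _ _ _ _)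
  have e2 : ∫ z, F z * (fb f l x z * fb f l y z) ∂(muRE d) - ∫ z, F z * g z.2 ^ 2 ∂(muRE d) =
      ∫ z', F z' * ((1 / (m : ℝ)) * ∑ j, Q j z') ∂(muRE d) := by
    have e3 : (fun z' => F z' * ((1 / (m : ℝ)) * ∑ j, Q j z')) = fun z' =>
        (1 / (m : ℝ)) * ∑ j : Fin m, F z' * (fb f l (act (rf u z j) x) z' *
          fb f l (act (rf u z j) y) z') - F z' * g z'.2 ^ 2 := by
      funext z'
      simp only [hQ]
      unfold Qf
      rw [Finset.sum_sub_distrib, ← Finset.mul_sum, Finset.sum_const, Finset.card_univ,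
        Fintype.card_fin, nsmul_eq_mul]
      field_simp
    rw [e3, integral_sub (Integrable.const_mul (integrable_finsetSum _ fun j _ => iFff _ _) _)
      iFg, integral_const_mul, integral_finsetSum _ (fun j _ => iFff _ _)]
    simp_rw [← e1]
    simp
    field_simp
  have hD2 : ∫ z', ((1 / (m : ℝ)) * ∑ j, Q j z') ^ 2 ∂(muRE d) ≤ τ ^ 2 * V := by
    rw [hD]
    calc _ ≤ (1 / (m : ℝ)) ^ 2 * ∑ _i : Fin m, m * (τ ^ 2 * V) := by
          apply mul_le_mul_of_nonneg_left _ (by positivity)
          exact Finset.sum_le_sum fun i _ => hr i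
      _ = τ ^ 2 * V := by
          simp
          field_simp
  have key : |∫ z', F z' * ((1 / (m : ℝ)) * ∑ j, Q j z') ∂(muRE d)| ≤ τ * V := by
    apply cs hτ
    · refine dom_int (G := F) (hFm.pow_const 2) hFi ?_
      intro z
      rw [abs_of_nonneg (sq_nonneg _), sq]
      exact mul_le_of_le_one_left (hF0 z) (hF1 z)
    · exact hDi
    · refine le_trans ?_ hFV
      apply integral_mono_of_nonneg (Eventually.of_forall fun z => sq_nonneg _) hFi
      refine Eventually.of_forall fun z => ?_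
      show F z ^ 2 ≤ F z
      rw [sq]
      exact mul_le_of_le_one_left (hF0 z) (hF1 z)
    · exact hD2
  rw [← e2] at key
  exact key

/-- A lower bound for the moments of the local density. -/
theorem moment {C ε l V θ : ℝ} {f g : E d → ℝ} (h : Good d C ε f g l V) (m : ℕ)
    (hε : 0 ≤ ε) (hε1 : ε ≤ 1 / 2) (hθ0 : 0 ≤ θ) (hθ : θ * V ≤ ∫ x, f x) :
    (θ / 2) ^ m * (θ / 4) * V ≤ ∫ x, g x ^ (m + 1) := by
  obtain ⟨B, hB, hBV, hgB⟩ := h.supp
  have hV := h.V_pos
  have hBfin : volume B ≠ ⊤ := ne_top_of_le_ne_top ENNReal.ofReal_ne_top hBV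
  have hpow : Integrable (fun x => g x ^ (m + 1)) := by
    apply h.g_int.mono' (h.g_meas.pow_const _).aestronglyMeasurable
    filter_upwards with x
    rw [Real.norm_of_nonneg (pow_nonneg (h.g_nonneg x) _)]
    calc g x ^ (m + 1) ≤ g x ^ 1 :=
          pow_le_pow_of_le_one (h.g_nonneg x) (h.g_le_one x) (by omega)
      _ = g x := pow_one _
  have hind : Integrable (B.indicator (fun _ => (1 : ℝ))) :=
    (integrable_indicator_iff hB).mpr (integrableOn_const hBfin)
  have hindint : ∫ x, B.indicator (fun _ => (1 : ℝ)) x = (volume B).toReal := by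
    rw [integral_indicator_const _ hB]; simp [Measure.real]
  have hBr : (volume B).toReal ≤ (1 + ε) * V := by
    have := ENNReal.toReal_mono ENNReal.ofReal_ne_top hBV
    rwa [ENNReal.toReal_ofReal (by positivity)] at this
  have key : ∀ x, (θ / 2) ^ m * (g x - (θ / 2) * B.indicator (fun _ => (1 : ℝ)) x) ≤
      g x ^ (m + 1) := by
    intro x
    have g0 := h.g_nonneg x
    have t0 : 0 ≤ (θ / 2) ^ m := by positivity
    by_cases hx : x ∈ B
    · rw [Set.indicator_of_mem hx, mul_one]
      rcases le_total (θ / 2) (g x) with h2 | h2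
      · calc (θ / 2) ^ m * (g x - θ / 2) ≤ (θ / 2) ^ m * g x := by
              apply mul_le_mul_of_nonneg_left _ t0
              linarith
          _ ≤ g x ^ m * g x := by
              apply mul_le_mul_of_nonneg_right _ g0
              exact pow_le_pow_left₀ (by positivity) h2 m
          _ = g x ^ (m + 1) := (pow_succ _ _).symm
      · have h3 : (θ / 2) ^ m * (g x - θ / 2) ≤ 0 :=
          mul_nonpos_of_nonneg_of_nonpos t0 (by linarith)
        exact h3.trans (pow_nonneg g0 _)
    · rw [Set.indicator_of_notMem hx, hgB x hx]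
      simp
  have h3 : ∫ x, (θ / 2) ^ m * (g x - (θ / 2) * B.indicator (fun _ => (1 : ℝ)) x) ≤
      ∫ x, g x ^ (m + 1) := by
    apply integral_mono
    · exact (h.g_int.sub (hind.const_mul _)).const_mul _
    · exact hpow
    · exact key
  rw [integral_const_mul, integral_sub h.g_int (hind.const_mul _), integral_const_mul, hindint,
    h.int_eq] at h3
  refine le_trans ?_ h3
  rw [mul_assoc]
  apply mul_le_mul_of_nonneg_left _ (by positivity)
  have h4 : (θ / 2) * (volume B).toReal ≤ (θ / 2) * ((1 + ε) * V) :=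
    mul_le_mul_of_nonneg_left hBr (by positivity)
  have h5 : (θ / 2) * (ε * V) ≤ (θ / 2) * ((1 / 2) * V) := by
    apply mul_le_mul_of_nonneg_left _ (by positivity)
    exact mul_le_mul_of_nonneg_right hε1 hV.le
  linarith

/-- The correlation of a full simplex. -/
theorem simplex_count (hd : 4 ≤ d) (v : ℕ → E d)
    (hv : ∀ k < d, v k ∉ Submodule.span ℝ (v '' {i | i < k}))
    (hfr : Module.finrank ℝ (Submodule.span ℝ (v '' {i | i < d - 2})) = d - 2) (s : ℝ)
    (hs : 0 < s) :
    Ev d (fun f g l V =>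
      |∫ z, (f z.2 * ∏ i ∈ Finset.range (d - 2), fb f l (v i) z) *
          (fb f l (v (d - 2)) z * fb f l (v (d - 1)) z) ∂(muRE d) -
        ∫ x, g x ^ (d + 1)| ≤ s * V) := by
  set n : ℕ := d - 2 with hn
  have hd1 : d - 1 = n + 1 := by omega
  have hn1 : 1 ≤ n := by omega
  rw [hd1]
  set W : Submodule ℝ (E d) := Submodule.span ℝ (v '' {i | i < n}) with hW
  set x : E d := v n with hx
  set y : E d := v (n + 1) with hy
  have hvW : ∀ i < n, v i ∈ W := fun i hi => Submodule.subset_span ⟨i, hi, rfl⟩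
  have hxW : x ∉ W := hv n (by omega)
  have hyW : y ∉ Submodule.span ℝ (v '' {i | i < n + 1}) := hv (n + 1) (by omega)
  have hxy : ∀ α β : ℝ, α • x + β • y ∈ W → α = 0 ∧ β = 0 := by
    intro α β hab
    have hWle : W ≤ Submodule.span ℝ (v '' {i | i < n + 1}) := by
      apply Submodule.span_mono
      apply Set.image_mono
      intro i hi
      have : i < n := hi
      show i < n + 1
      omega
    have hx1 : x ∈ Submodule.span ℝ (v '' {i | i < n + 1}) :=
      Submodule.subset_span ⟨n, Nat.lt_succ_self n, rfl⟩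
    have hβ : β = 0 := by
      by_contra hne
      apply hyW
      have h1 : y = β⁻¹ • ((α • x + β • y) - α • x) := by
        rw [add_sub_cancel_left, smul_smul, inv_mul_cancel₀ hne, one_smul]
      rw [h1]
      exact Submodule.smul_mem _ _ (Submodule.sub_mem _ (hWle hab)
        (Submodule.smul_mem _ _ hx1))
    rw [hβ, zero_smul, add_zero] at hab
    refine ⟨?_, hβ⟩
    by_contra hne
    apply hxW
    have h1 : x = α⁻¹ • (α • x) := by rw [smul_smul, inv_mul_cancel₀ hne, one_smul]
    rw [h1]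
    exact Submodule.smul_mem _ _ hab
  have hne := ne_of_hxy hxy
  have hfr2 : Module.finrank ℝ W + 2 = d := by omega
  have hv0 : v 0 ≠ 0 := by
    intro h0
    apply hv 0 (by omega)
    rw [h0]
    exact Submodule.zero_mem _
  have main1 : ∃ u z : E d, Frame W u z ∧ ∃ m : ℕ, 0 < m ∧
      Ev d (fun f g l V => ∀ i : Fin m, ∑ j : Fin m,
        ∫ z', Qf f g l (act (rf u z i) x) (act (rf u z i) y) z' *
          Qf f g l (act (rf u z j) x) (act (rf u z j) y) z' ∂(muRE d) ≤
            m * ((s / 2) ^ 2 * V)) := by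
    by_cases hcase : ∀ w ∈ W, ⟪w, x - y⟫ = 0
    · obtain ⟨z, hz⟩ := exists_frame hfr2 (sub_ne_zero.2 hne)
        (fun w hw => by rw [real_inner_comm]; exact hcase w hw)
      exact ⟨x - y, z, hz, row3 hd hz hxy (hvW 0 (by omega)) hv0 _ (by positivity)⟩
    · push Not at hcase
      obtain ⟨w, hw, hwxy⟩ := hcase
      obtain ⟨u, hu, hu0⟩ : ∃ u ∈ Wᗮ, u ≠ 0 := by
        apply Submodule.exists_mem_ne_zero_of_ne_bot
        intro hbot
        have h1 := Submodule.finrank_add_finrank_orthogonal (𝕜 := ℝ) W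
        rw [hbot, finrank_bot, add_zero, finrank_euclideanSpace_fin] at h1
        omega
      obtain ⟨z, hz⟩ := exists_frame hfr2 hu0 (fun w hw => by
        rw [real_inner_comm]
        exact (Submodule.mem_orthogonal _ _).1 hu w hw)
      exact ⟨u, z, hz, row2 hd hz hxy hw hwxy _ (by positivity)⟩
  obtain ⟨u, z, hz, m, hm, hrow⟩ := main1
  have A1 := stepA hz n v hvW (s / 2) (by positivity) hm hrow
  have A2 := corek (by omega) n 2 (by omega) v (fun i hi => hv i (by omega)) (s / 2)
    (by positivity)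
  have e1 : n + 1 + 2 = d + 1 := by omega
  rw [e1] at A2
  refine (A1.and A2).mono ?_
  intro f g l V C ε _ ⟨h1, h2⟩
  rw [abs_le] at h1 h2 ⊢
  constructor
  · linarith [h1.1, h2.1]
  · linarith [h1.2, h2.2]

theorem main4_measurable (hd : 4 ≤ d) (P : Fin (d + 1) → E d) (hP : AffineIndependent ℝ P)
    (A : Set (E d)) (hA : MeasurableSet A) (hdens : 0 < upperDensity A) :
    ∃ l₀ : ℝ, ∀ l : ℝ, l₀ ≤ l →
      ∃ (x : E d) (O : E d ≃ₗᵢ[ℝ] E d), ∀ i, x + O (l • P i) ∈ A := by
  classical
  by_contra hcon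
  push Not at hcon
  -- the vectors
  set v : ℕ → E d := fun i => if h : i + 1 < d + 1 then P ⟨i + 1, h⟩ - P 0 else 0 with hv
  have hvi : ∀ i : Fin d, v i = P i.succ - P 0 := by
    intro i
    simp only [hv]
    rw [dif_pos (by omega)]
    rfl
  have hli : LinearIndependent ℝ (fun i : Fin d => v i) := by
    have h1 := hP
    rw [affineIndependent_iff_linearIndependent_vsub ℝ _ (0 : Fin (d + 1))] at h1
    have h2 := h1.comp
      (fun i : Fin d => (⟨i.succ, Fin.succ_ne_zero i⟩ : {x : Fin (d + 1) // x ≠ 0}))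
      (by
        intro a b hab
        simpa using hab)
    have h3 : (fun i : Fin d => v i) =
        ((fun i : {x : Fin (d + 1) // x ≠ 0} => P i -ᵥ P 0) ∘
          fun i : Fin d => ⟨i.succ, Fin.succ_ne_zero i⟩) := by
      funext i
      exact hvi i
    rw [h3]
    exact h2
  have hspan : ∀ k < d, v k ∉ Submodule.span ℝ (v '' {i | i < k}) := by
    intro k hk
    have := hli.notMem_span_image (s := {i : Fin d | (i : ℕ) < k}) (x := ⟨k, hk⟩) (by simp)
    intro h
    apply this
    convert h using 2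
    ext x
    simp only [Set.mem_image, Set.mem_ofPred_eq]
    constructor
    · rintro ⟨i, hi, rfl⟩
      exact ⟨i, hi, rfl⟩
    · rintro ⟨i, hi, rfl⟩
      exact ⟨⟨i, by omega⟩, hi, rfl⟩
  have hfr : Module.finrank ℝ (Submodule.span ℝ (v '' {i | i < d - 2})) = d - 2 := by
    have h1 := hli.comp (Fin.castLE (show d - 2 ≤ d by omega)) (Fin.castLE_injective _)
    have h2 := finrank_span_eq_card h1
    rw [Fintype.card_fin] at h2
    have h3 : v '' {i | i < d - 2} =
        Set.range ((fun i : Fin d => v i) ∘ Fin.castLE (show d - 2 ≤ d by omega)) := by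
      ext x
      constructor
      · rintro ⟨i, hi, rfl⟩
        exact ⟨⟨i, hi⟩, rfl⟩
      · rintro ⟨i, rfl⟩
        exact ⟨i, i.isLt, rfl⟩
    rw [h3]
    exact h2
  obtain ⟨θ, hθ1, hθ2⟩ := exists_between hdens
  set s : ℝ := (θ / 2) ^ d * (θ / 4) / 2 with hs
  have hs0 : 0 < s := by positivity
  obtain ⟨C, hC, ε, hε, H⟩ := simplex_count hd v hspan hfr s hs0
  obtain ⟨f, g, l, V, hbad, hgood, hfA, hmass⟩ := exists_good (by omega) A hA θ hθ1.le hθ2
    (fun l => ∀ (x : E d) (O : E d ≃ₗᵢ[ℝ] E d), ∃ i, x + O (l • P i) ∉ A) hcon C hC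
    (min ε (1 / 2)) (lt_min hε (by norm_num))
  have hV := hgood.V_pos
  have H1 : |∫ z, (f z.2 * ∏ i ∈ Finset.range (d - 2), fb f l (v i) z) *
          (fb f l (v (d - 2)) z * fb f l (v (d - 1)) z) ∂(muRE d) -
        ∫ x, g x ^ (d + 1)| ≤ s * V := H f g l V (hgood.mono le_rfl hC (min_le_left _ _))
  have H2 := moment hgood d (le_min hε.le (by norm_num)) (min_le_right _ _) hθ1.le hmass
  have hin : ∀ x, f x ≠ 0 → x ∈ A := fun x hx => by
    rcases hfA x with h | h
    · exact absurd h hx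
    · exact h.2
  have hvan : ∀ z : Rot d × E d, (f z.2 * ∏ i ∈ Finset.range (d - 2), fb f l (v i) z) *
      (fb f l (v (d - 2)) z * fb f l (v (d - 1)) z) = 0 := by
    intro z
    by_contra hne
    simp only [mul_ne_zero_iff] at hne
    obtain ⟨⟨n1, n2⟩, n3, n4⟩ := hne
    obtain ⟨k, hk⟩ := hbad (z.2 - l • act z.1 (P 0)) (toIso z.1)
    apply hk
    rw [toIso_apply, act_smul]
    apply hin
    by_cases k0 : k = 0
    · rw [k0, sub_add_cancel]
      exact n1
    · obtain ⟨i, rfl⟩ := Fin.exists_succ_eq.2 k0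
      have e1 : z.2 - l • act z.1 (P 0) + l • act z.1 (P i.succ) =
          z.2 + l • act z.1 (v i) := by
        rw [hvi, act_sub, smul_sub]
        abel
      rw [e1]
      have hid := i.isLt
      by_cases c1 : (i : ℕ) < d - 2
      · exact Finset.prod_ne_zero_iff.mp n2 i (Finset.mem_range.mpr c1)
      · by_cases c2 : (i : ℕ) = d - 2
        · rw [c2]
          exact n3
        · have c3 : (i : ℕ) = d - 1 := by omega
          rw [c3]
          exact n4
  have hzero : ∫ z, (f z.2 * ∏ i ∈ Finset.range (d - 2), fb f l (v i) z) *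
          (fb f l (v (d - 2)) z * fb f l (v (d - 1)) z) ∂(muRE d) = 0 := by
    simp only [hvan, integral_zero]
  rw [hzero, abs_le] at H1
  have h5 : (θ / 2) ^ d * (θ / 4) * V = 2 * (s * V) := by
    rw [hs]
    ring
  have h6 : 0 < s * V := mul_pos hs0 hV
  linarith [H1.1]

theorem main4 (hd : 4 ≤ d) (P : Fin (d + 1) → E d) (hP : AffineIndependent ℝ P)
    (A : Set (E d)) (hA : NullMeasurableSet A volume) (hdens : 0 < upperDensity A) :
    ∃ l₀ : ℝ, ∀ l : ℝ, l₀ ≤ l →
      ∃ (x : E d) (O : E d ≃ₗᵢ[ℝ] E d), ∀ i, x + O (l • P i) ∈ A := by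
  obtain ⟨B, hBA, hBm, hBe⟩ := hA.exists_measurable_subset_ae_eq
  have h1 : upperDensity B = upperDensity A := by
    unfold upperDensity
    congr 1
    funext T
    have : volume (B ∩ box d T) = volume (A ∩ box d T) :=
      measure_congr (hBe.inter (ae_eq_refl (box d T)))
    rw [this]
  obtain ⟨l₀, h2⟩ := main4_measurable hd P hP B hBm (by rw [h1]; exact hdens)
  refine ⟨l₀, fun l hl => ?_⟩
  obtain ⟨x, O, h3⟩ := h2 l hl
  exact ⟨x, O, fun i => hBA (h3 i)⟩

end Pool.Agent.H16.Simp
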