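import Pool.Agent.H16.Simp4.Cnt

/-!
# The deviations of a pair under the reflections are almost orthogonal on average
-/

open MeasureTheory Measure Metric Filter Topology
open scoped RealInnerProductSpace

namespace Pool.Agent.H16.Simp

variable {d : ℕ}

section good

variable {C ε : ℝ} {f g : E d → ℝ} {l V : ℝ}

theorem Good.Q_meas (h : Good d C ε f g l V) (p q : E d) : Measurable (Qf f g l p q) :=
  ((fb_meas h.f_meas l p).mul (fb_meas h.f_meas l q)).sub
    ((h.g_meas.comp measurable_snd).pow_const 2)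

theorem Good.Q_abs (h : Good d C ε f g l V) (p q : E d) (z : Rot d × E d) :
    |Qf f g l p q z| ≤ fb f l p z + g z.2 ∧ |Qf f g l p q z| ≤ 1 := by
  have a1 := h.f0 p z
  have a2 := h.f1 p z
  have b1 := h.f0 q z
  have b2 := h.f1 q z
  have c1 := h.g_nonneg z.2
  have c2 := h.g_le_one z.2
  have e1 : 0 ≤ fb f l p z * fb f l q z := mul_nonneg a1 b1
  have e2 : fb f l p z * fb f l q z ≤ fb f l p z := mul_le_of_le_one_right a1 b2
  have e3 : 0 ≤ g z.2 ^ 2 := sq_nonneg _
  have e4 : g z.2 ^ 2 ≤ g z.2 := by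
    rw [sq]
    exact mul_le_of_le_one_left c1 c2
  unfold Qf
  constructor
  · rw [abs_le]
    constructor <;> linarith
  · rw [abs_le]
    constructor <;> linarith

theorem Good.QQ_int (h : Good d C ε f g l V) (p q r s : E d) :
    Integrable (fun z => Qf f g l p q z * Qf f g l r s z) (muRE d) := by
  refine dom_int (G := fun z => fb f l p z + g z.2) ((h.Q_meas p q).mul (h.Q_meas r s))
    ((fb_int h.f_int l p).add (snd_int h.g_int)) ?_
  intro z
  rw [abs_mul]
  calc |Qf f g l p q z| * |Qf f g l r s z| ≤ |Qf f g l p q z| * 1 :=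
        mul_le_mul_of_nonneg_left (h.Q_abs r s z).2 (abs_nonneg _)
    _ ≤ _ := by rw [mul_one]; exact (h.Q_abs p q z).1

theorem Good.QQ_le (h : Good d C ε f g l V) (p q r s : E d) :
    ∫ z, Qf f g l p q z * Qf f g l r s z ∂(muRE d) ≤ 2 * V := by
  calc _ ≤ ∫ z, (fb f l p z + g z.2) ∂(muRE d) := by
        apply integral_mono (h.QQ_int p q r s) ((fb_int h.f_int l p).add (snd_int h.g_int))
        intro z
        refine le_trans (le_abs_self _) ?_
        show |Qf f g l p q z * Qf f g l r s z| ≤ fb f l p z + g z.2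
        rw [abs_mul]
        calc |Qf f g l p q z| * |Qf f g l r s z| ≤ |Qf f g l p q z| * 1 :=
              mul_le_mul_of_nonneg_left (h.Q_abs r s z).2 (abs_nonneg _)
          _ ≤ _ := by rw [mul_one]; exact (h.Q_abs p q z).1
    _ = (∫ x, f x) + ∫ x, g x := by
        rw [integral_add (fb_int h.f_int l p) (snd_int h.g_int), integral_fb h.f_meas,
          integral_snd]
    _ ≤ 2 * V := by
        have := h.f_mass
        have := h.int_eq
        linarith

theorem Good.ffff_int (h : Good d C ε f g l V) (p q r s : E d) :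
    Integrable (fun z => (fb f l p z * fb f l q z) * (fb f l r z * fb f l s z)) (muRE d) := by
  refine dom_int (G := fb f l p) (((fb_meas h.f_meas l p).mul (fb_meas h.f_meas l q)).mul
    ((fb_meas h.f_meas l r).mul (fb_meas h.f_meas l s))) (fb_int h.f_int l p) ?_
  intro z
  have a1 := h.f0 p z
  have a2 := h.f0 q z
  have a3 := h.f0 r z
  have a4 := h.f0 s z
  rw [abs_of_nonneg (mul_nonneg (mul_nonneg a1 a2) (mul_nonneg a3 a4)), mul_assoc]
  refine mul_le_of_le_one_right a1 ?_
  exact mul_le_one₀ (h.f1 _ _) (mul_nonneg a3 a4) (mul_le_one₀ (h.f1 _ _) a4 (h.f1 _ _))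

theorem Good.ffg_int (h : Good d C ε f g l V) (p q : E d) :
    Integrable (fun z => fb f l p z * fb f l q z * g z.2 ^ 2) (muRE d) := by
  refine dom_int (G := fb f l p) (((fb_meas h.f_meas l p).mul (fb_meas h.f_meas l q)).mul
    ((h.g_meas.comp measurable_snd).pow_const 2)) (fb_int h.f_int l p) ?_
  intro z
  have a1 := h.f0 p z
  have a2 := h.f0 q z
  have a3 : 0 ≤ g z.2 ^ 2 := sq_nonneg _
  have a4 : g z.2 ^ 2 ≤ 1 := pow_le_one₀ (h.g_nonneg _) (h.g_le_one _)
  rw [abs_of_nonneg (mul_nonneg (mul_nonneg a1 a2) a3), mul_assoc]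
  exact mul_le_of_le_one_right a1 (mul_le_one₀ (h.f1 _ _) a3 a4)

theorem Good.g4_int (h : Good d C ε f g l V) :
    Integrable (fun z : Rot d × E d => g z.2 ^ 4) (muRE d) := by
  refine dom_int (G := fun z => g z.2) ((h.g_meas.comp measurable_snd).pow_const 4)
    (snd_int h.g_int) ?_
  intro z
  rw [abs_of_nonneg (pow_nonneg (h.g_nonneg _) 4)]
  calc g z.2 ^ 4 ≤ g z.2 ^ 1 := pow_le_pow_of_le_one (h.g_nonneg _) (h.g_le_one _) (by norm_num)
    _ = g z.2 := pow_one _

theorem Good.QQ_eq (h : Good d C ε f g l V) (p q r s : E d) :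
    ∫ z, Qf f g l p q z * Qf f g l r s z ∂(muRE d) =
      I4 f l p q r s - G2 f g l p q - G2 f g l r s + ∫ x, g x ^ 4 := by
  have e : (fun z => Qf f g l p q z * Qf f g l r s z) = fun z =>
      (fb f l p z * fb f l q z) * (fb f l r z * fb f l s z) - fb f l p z * fb f l q z * g z.2 ^ 2
        - fb f l r z * fb f l s z * g z.2 ^ 2 + g z.2 ^ 4 := by
    funext z
    unfold Qf
    ring
  rw [e]
  have i1 := h.ffff_int p q r s
  have i2 := h.ffg_int p q
  have i3 := h.ffg_int r s
  have i4 := h.g4_int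
  have i12 : Integrable (fun z => (fb f l p z * fb f l q z) * (fb f l r z * fb f l s z) -
      fb f l p z * fb f l q z * g z.2 ^ 2) (muRE d) := i1.sub i2
  have i123 : Integrable (fun z => (fb f l p z * fb f l q z) * (fb f l r z * fb f l s z) -
      fb f l p z * fb f l q z * g z.2 ^ 2 - fb f l r z * fb f l s z * g z.2 ^ 2) (muRE d) :=
    i12.sub i3
  rw [integral_add i123 i4, integral_sub i12 i3, integral_sub i1 i2,
    integral_snd (fun x => g x ^ 4)]
  rfl

end good

theorem ev_QQ (hd : 2 ≤ d) {p q r s : E d} (hpq : p ≠ q) (hrs : r ≠ s) (t : ℝ) (ht : 0 < t) :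
    Ev d (fun f g l V => |∫ z, Qf f g l p q z * Qf f g l r s z ∂(muRE d) -
      (I4 f l p q r s - ∫ x, g x ^ 4)| ≤ t * V) := by
  refine ((cnt2 hd hpq (t / 2) (by positivity)).and (cnt2 hd hrs (t / 2) (by positivity))).mono ?_
  intro f g l V C ε h ⟨h1, h2⟩
  rw [h.QQ_eq]
  rw [abs_le] at h1 h2 ⊢
  constructor
  · linarith [h1.1, h1.2, h2.1, h2.2]
  · linarith [h1.1, h1.2, h2.1, h2.2]

theorem ev_small (hd : 4 ≤ d) {p q r s : E d} (hp : AffineIndependent ℝ ![p, q, r, s]) (t : ℝ)
    (ht : 0 < t) : Ev d (fun f g l V => ∫ z, Qf f g l p q z * Qf f g l r s z ∂(muRE d)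
      ≤ t * V) := by
  have hpq : p ≠ q := by
    have := hp.injective.ne (show (0 : Fin 4) ≠ 1 by decide)
    simpa using this
  have hrs : r ≠ s := by
    have := hp.injective.ne (show (2 : Fin 4) ≠ 3 by decide)
    simpa using this
  refine ((ev_QQ (by omega) hpq hrs (t / 2) (by positivity)).and
    (cnt4 hd hp (t / 2) (by positivity))).mono ?_
  intro f g l V C ε h ⟨h1, h2⟩
  rw [abs_le] at h1 h2
  linarith [h1.2, h2.2]

/-- The square of an average. -/
theorem avg_sq {Ω : Type} [MeasurableSpace Ω] {μ : Measure Ω} {m : ℕ} (Q : Fin m → Ω → ℝ)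
    (hint : ∀ i j, Integrable (fun z => Q i z * Q j z) μ) :
    Integrable (fun z => ((1 / (m : ℝ)) * ∑ i, Q i z) ^ 2) μ ∧
    ∫ z, ((1 / (m : ℝ)) * ∑ i, Q i z) ^ 2 ∂μ =
      (1 / (m : ℝ)) ^ 2 * ∑ i, ∑ j, ∫ z, Q i z * Q j z ∂μ := by
  have e : (fun z => ((1 / (m : ℝ)) * ∑ i, Q i z) ^ 2) = fun z =>
      (1 / (m : ℝ)) ^ 2 * ∑ i, ∑ j, Q i z * Q j z := by
    funext z
    rw [← Finset.sum_mul_sum]
    ring
  rw [e]
  constructor
  · exact Integrable.const_mul (integrable_finsetSum _ fun i _ =>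
      integrable_finsetSum _ fun j _ => hint i j) _
  · rw [integral_const_mul, integral_finsetSum _ (fun i _ => integrable_finsetSum _
      fun j _ => hint i j)]
    congr 1
    refine Finset.sum_congr rfl fun i _ => ?_
    exact integral_finsetSum _ fun j _ => hint i j

theorem pair_count {m : ℕ} (i₀ : Fin m) (c : Fin m → Fin m → ℝ) {M κ : ℝ} (hM : 0 ≤ M)
    (hκ : 0 ≤ κ) (hc : ∀ j j', c j j' ≤ M)
    (hg : ∀ j j', i₀ ≠ j → i₀ ≠ j' → j ≠ j' → c j j' ≤ κ) :
    ∑ j, ∑ j', c j j' ≤ 3 * m * M + m ^ 2 * κ := by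
  have b : ∀ j j', c j j' ≤ (if j = j' then M else 0) + (if i₀ = j then M else 0) +
      (if i₀ = j' then M else 0) + κ := by
    intro j j'
    have h1 := hc j j'
    by_cases e1 : j = j'
    · rw [if_pos e1]
      have : 0 ≤ (if i₀ = j then M else 0) := by split_ifs <;> simp [hM]
      have : 0 ≤ (if i₀ = j' then M else 0) := by split_ifs <;> simp [hM]
      linarith
    by_cases e2 : i₀ = j
    · rw [if_neg e1, if_pos e2]
      have : 0 ≤ (if i₀ = j' then M else 0) := by split_ifs <;> simp [hM]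
      linarith
    by_cases e3 : i₀ = j'
    · rw [if_neg e1, if_neg e2, if_pos e3]
      linarith
    rw [if_neg e1, if_neg e2, if_neg e3]
    have := hg j j' e2 e3 e1
    linarith
  calc ∑ j, ∑ j', c j j' ≤ ∑ j : Fin m, ∑ j' : Fin m, ((if j = j' then M else 0) +
        (if i₀ = j then M else 0) + (if i₀ = j' then M else 0) + κ) :=
        Finset.sum_le_sum fun j _ => Finset.sum_le_sum fun j' _ => b j j'
    _ = 3 * m * M + m ^ 2 * κ := by
        simp only [Finset.sum_add_distrib, Finset.sum_ite_eq, Finset.mem_univ, if_true,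
          Finset.sum_const, Finset.card_univ, Fintype.card_fin, nsmul_eq_mul]
        simp only [← Finset.mul_sum, Finset.sum_ite_eq, Finset.mem_univ, if_true]
        ring

section rows

variable {W : Submodule ℝ (E d)} {u z x y : E d}

theorem ne_of_hxy (hxy : ∀ α β : ℝ, α • x + β • y ∈ W → α = 0 ∧ β = 0) : x ≠ y := by
  intro h
  have := (hxy 1 (-1) (by
    rw [h]
    have : (1 : ℝ) • y + (-1 : ℝ) • y = 0 := by module
    rw [this]
    exact Submodule.zero_mem _)).1
  exact one_ne_zero this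

theorem act_ne (U : Rot d) {x y : E d} (h : x ≠ y) : act U x ≠ act U y := by
  intro h1
  apply h
  have h2 : act U (x - y) = 0 := by rw [act_sub, h1, sub_self]
  have h3 : ‖x - y‖ = 0 := by rw [← norm_act U, h2, norm_zero]
  exact sub_eq_zero.1 (norm_eq_zero.1 h3)

theorem mv_ne (U : Rot d) (c : E d) {x y : E d} (h : x ≠ y) : mv U c x ≠ mv U c y := by
  intro h1
  exact act_ne U h (add_right_cancel h1)

/-- Rows, first case. -/
theorem row2 (hd : 4 ≤ d) (h : Frame W u z)
    (hxy : ∀ α β : ℝ, α • x + β • y ∈ W → α = 0 ∧ β = 0) {w : E d} (hw : w ∈ W)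
    (hwxy : ⟪w, x - y⟫ ≠ 0) (τ : ℝ) (hτ : 0 < τ) : ∃ m : ℕ, 0 < m ∧
    Ev d (fun f g l V => ∀ i : Fin m, ∑ j : Fin m,
      ∫ z', Qf f g l (act (rf u z i) x) (act (rf u z i) y) z' *
        Qf f g l (act (rf u z j) x) (act (rf u z j) y) z' ∂(muRE d) ≤ m * (τ * V)) := by
  obtain ⟨m, hm⟩ := exists_nat_gt (4 / τ)
  have hm0 : (0 : ℝ) < m := lt_trans (by positivity) hm
  have hmN : 0 < m := by exact_mod_cast hm0
  refine ⟨m, hmN, ?_⟩
  have h1 : Ev d (fun f g l V => ∀ i j : Fin m, i ≠ j →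
      ∫ z', Qf f g l (act (rf u z i) x) (act (rf u z i) y) z' *
        Qf f g l (act (rf u z j) x) (act (rf u z j) y) z' ∂(muRE d) ≤ (τ / 2) * V) := by
    refine Ev.all fun i => Ev.all fun j => ?_
    by_cases hij : i = j
    · exact Ev.of_forall fun f g l V C ε _ hne => absurd hij hne
    · have hij' : (i : ℕ) ≠ (j : ℕ) := fun e => hij (Fin.ext e)
      refine (ev_small hd (h.geo2 hxy hw hwxy hij') (τ / 2) (by positivity)).mono ?_
      intro f g l V C ε _ h2 _
      exact h2
  refine h1.mono ?_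
  intro f g l V C ε hg h2 i
  have hV := hg.V_pos
  calc _ ≤ ∑ j : Fin m, ((if i = j then 2 * V else 0) + (τ / 2) * V) := by
        refine Finset.sum_le_sum fun j _ => ?_
        by_cases hij : i = j
        · rw [if_pos hij]
          have := hg.QQ_le (act (rf u z i) x) (act (rf u z i) y) (act (rf u z j) x)
            (act (rf u z j) y)
          have : 0 ≤ (τ / 2) * V := by positivity
          linarith
        · rw [if_neg hij, zero_add]
          exact h2 i j hij
    _ = 2 * V + m * ((τ / 2) * V) := by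
        simp [Finset.sum_add_distrib]
    _ ≤ m * (τ * V) := by
        rw [div_lt_iff₀ hτ] at hm
        nlinarith

/-- Rows, second case. -/
theorem row3 (hd : 4 ≤ d) (h : Frame W (x - y) z)
    (hxy : ∀ α β : ℝ, α • x + β • y ∈ W → α = 0 ∧ β = 0) {w₀ : E d} (hw₀ : w₀ ∈ W)
    (hw₀0 : w₀ ≠ 0) (τ : ℝ) (hτ : 0 < τ) : ∃ m : ℕ, 0 < m ∧
    Ev d (fun f g l V => ∀ i : Fin m, ∑ j : Fin m,
      ∫ z', Qf f g l (act (rf (x - y) z i) x) (act (rf (x - y) z i) y) z' *
        Qf f g l (act (rf (x - y) z j) x) (act (rf (x - y) z j) y) z' ∂(muRE d)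
          ≤ m * (τ * V)) := by
  set t : ℝ := τ / 4 with ht
  have ht0 : 0 < t := by positivity
  obtain ⟨m, hm⟩ := exists_nat_gt (6 / t ^ 2)
  have hm0 : (0 : ℝ) < m := lt_trans (by positivity) hm
  have hmN : 0 < m := by exact_mod_cast hm0
  refine ⟨m, hmN, ?_⟩
  have hne := ne_of_hxy hxy
  set K : ℕ → Rot d := fun j => rf (x - y) z j with hK
  set H : ℕ → ℕ → Rot d := fun i b => rf (act (K i) z) w₀ b with hH
  set c : ℕ → E d := fun i => act (K i) x with hc
  -- the image of the pair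
  have h1 : Ev d (fun f g l V => ∀ i j : Fin m,
      |∫ z', Qf f g l (act (K i) x) (act (K i) y) z' *
        Qf f g l (act (K j) x) (act (K j) y) z' ∂(muRE d) -
      (I4 f l (act (K i) x) (act (K i) y) (act (K j) x) (act (K j) y) - ∫ x, g x ^ 4)|
        ≤ t * V) := by
    refine Ev.all fun i => Ev.all fun j => ?_
    exact ev_QQ (by omega) (act_ne _ hne) (act_ne _ hne) t ht0
  have h2 : Ev d (fun f g l V => ∀ i j : Fin m,
      |∫ z', Qf f g l (act (K i) x) (act (K i) y) z' *
        Qf f g l (mv (H i j) (c i) (act (K j) x)) (mv (H i j) (c i) (act (K j) y)) z'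
          ∂(muRE d) -
      (I4 f l (act (K i) x) (act (K i) y) (mv (H i j) (c i) (act (K j) x))
        (mv (H i j) (c i) (act (K j) y)) - ∫ x, g x ^ 4)| ≤ t * V) := by
    refine Ev.all fun i => Ev.all fun j => ?_
    exact ev_QQ (by omega) (act_ne _ hne) (mv_ne _ _ (act_ne _ hne)) t ht0
  have h3 : Ev d (fun f g l V => ∀ i j j' : Fin m, i ≠ j → i ≠ j' → j ≠ j' →
      ∫ z', Qf f g l (mv (H i j) (c i) (act (K j) x)) (mv (H i j) (c i) (act (K j) y)) z' *
        Qf f g l (mv (H i j') (c i) (act (K j') x)) (mv (H i j') (c i) (act (K j') y)) z'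
          ∂(muRE d) ≤ t ^ 2 * V) := by
    refine Ev.all fun i => Ev.all fun j => Ev.all fun j' => ?_
    by_cases hij : i = j
    · exact Ev.of_forall fun f g l V C ε _ hne => absurd hij hne
    by_cases hij' : i = j'
    · exact Ev.of_forall fun f g l V C ε _ _ hne => absurd hij' hne
    by_cases hjj' : j = j'
    · exact Ev.of_forall fun f g l V C ε _ _ _ hne => absurd hjj' hne
    have e1 : (i : ℕ) ≠ (j : ℕ) := fun e => hij (Fin.ext e)
    have e2 : (i : ℕ) ≠ (j' : ℕ) := fun e => hij' (Fin.ext e)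
    have e3 : (j : ℕ) ≠ (j' : ℕ) := fun e => hjj' (Fin.ext e)
    refine (ev_small hd (h.geo3 hxy hw₀ hw₀0 e1 e2 e3) (t ^ 2) (by positivity)).mono ?_
    intro f g l V C ε _ h2 _ _ _
    exact h2
  refine ((h1.and h2).and h3).mono ?_
  intro f g l V C ε hg ⟨⟨k1, k2⟩, k3⟩ i
  have hV := hg.V_pos
  -- the isometries fix the points of the pair
  have hfix1 : ∀ b, mv (H i b) (c i) (act (K i) x) = act (K i) x := fun b => mv_self _ _
  have hfix2 : ∀ b, mv (H i b) (c i) (act (K i) y) = act (K i) y := by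
    intro b
    rw [mv_eq]
    have e1 : act (K i) y - c i = act (K i) (-(x - y)) := by
      simp only [hc]
      rw [← act_sub]
      congr 1
      abel
    have e2 : act (H i b) (act (K i) (-(x - y))) = act (K i) (-(x - y)) := by
      apply rf_fix
      · rw [inner_act, inner_neg_right, real_inner_comm, h.huz, neg_zero]
      · rw [h.innerW i hw₀, inner_neg_right, real_inner_comm, h.uW w₀ hw₀, neg_zero]
    rw [e1, e2, ← e1]
    abel
  have hI : ∀ j : Fin m, I4 f l (act (K i) x) (act (K i) y) (act (K j) x) (act (K j) y) =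
      I4 f l (act (K i) x) (act (K i) y) (mv (H i j) (c i) (act (K j) x))
        (mv (H i j) (c i) (act (K j) y)) := by
    intro j
    have := I4_mv hg.f_meas l (H i j) (c i) (act (K i) x) (act (K i) y) (act (K j) x)
      (act (K j) y)
    rw [hfix1, hfix2] at this
    exact this.symm
  set Q' : Fin m → Rot d × E d → ℝ := fun j =>
    Qf f g l (mv (H i j) (c i) (act (K j) x)) (mv (H i j) (c i) (act (K j) y)) with hQ'
  have hle : ∀ j : Fin m, ∫ z', Qf f g l (act (K i) x) (act (K i) y) z' *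
        Qf f g l (act (K j) x) (act (K j) y) z' ∂(muRE d) ≤
      ∫ z', Qf f g l (act (K i) x) (act (K i) y) z' * Q' j z' ∂(muRE d) + 2 * t * V := by
    intro j
    have a1 := k1 i j
    have a2 := k2 i j
    rw [hI j] at a1
    rw [abs_le] at a1 a2
    linarith [a1.2, a2.1]
  obtain ⟨hDi, hD⟩ := avg_sq (μ := muRE d) Q' (fun j j' => hg.QQ_int _ _ _ _)
  have hD2 : ∫ z', ((1 / (m : ℝ)) * ∑ j, Q' j z') ^ 2 ∂(muRE d) ≤ t ^ 2 * (2 * V) := by
    rw [hD]
    have h5 := pair_count i (fun j j' => ∫ z', Q' j z' * Q' j' z' ∂(muRE d))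
      (M := 2 * V) (κ := t ^ 2 * V) (by positivity) (by positivity)
      (fun j j' => hg.QQ_le _ _ _ _) (fun j j' e1 e2 e3 => k3 i j j' e1 e2 e3)
    calc _ ≤ (1 / (m : ℝ)) ^ 2 * (3 * m * (2 * V) + m ^ 2 * (t ^ 2 * V)) := by
          exact mul_le_mul_of_nonneg_left h5 (by positivity)
      _ = (6 / m) * V + t ^ 2 * V := by
          field_simp
          ring
      _ ≤ t ^ 2 * V + t ^ 2 * V := by
          have h6 : 6 / (m : ℝ) ≤ t ^ 2 := by
            rw [div_lt_iff₀ (by positivity)] at hm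
            rw [div_le_iff₀ hm0]
            linarith
          have := mul_le_mul_of_nonneg_right h6 hV.le
          linarith
      _ = t ^ 2 * (2 * V) := by ring
  have hcs : |∫ z', Qf f g l (act (K i) x) (act (K i) y) z' *
      ((1 / (m : ℝ)) * ∑ j, Q' j z') ∂(muRE d)| ≤ t * (2 * V) := by
    apply cs ht0
    · have := hg.QQ_int (act (K i) x) (act (K i) y) (act (K i) x) (act (K i) y)
      simpa [sq] using this
    · exact hDi
    · have := hg.QQ_le (act (K i) x) (act (K i) y) (act (K i) x) (act (K i) y)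
      simpa [sq] using this
    · exact hD2
  have hsum : ∫ z', Qf f g l (act (K i) x) (act (K i) y) z' *
      ((1 / (m : ℝ)) * ∑ j, Q' j z') ∂(muRE d) = (1 / (m : ℝ)) *
      ∑ j, ∫ z', Qf f g l (act (K i) x) (act (K i) y) z' * Q' j z' ∂(muRE d) := by
    rw [← integral_finsetSum _ (fun j _ => hg.QQ_int _ _ _ _), ← integral_const_mul]
    congr 1
    funext z'
    rw [← Finset.mul_sum]
    ring
  have hsum2 : ∑ j, ∫ z', Qf f g l (act (K i) x) (act (K i) y) z' * Q' j z' ∂(muRE d) ≤
      m * (t * (2 * V)) := by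
    rw [hsum] at hcs
    have h7 := (abs_le.1 hcs).2
    rw [one_div, inv_mul_le_iff₀ hm0] at h7
    exact h7
  calc _ ≤ ∑ j : Fin m, (∫ z', Qf f g l (act (K i) x) (act (K i) y) z' * Q' j z' ∂(muRE d) +
        2 * t * V) := Finset.sum_le_sum fun j _ => hle j
    _ = ∑ j : Fin m, (∫ z', Qf f g l (act (K i) x) (act (K i) y) z' * Q' j z' ∂(muRE d)) +
        m * (2 * t * V) := by
        simp [Finset.sum_add_distrib]
    _ ≤ m * (t * (2 * V)) + m * (2 * t * V) := by linarith
    _ = m * (τ * V) := by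
        rw [ht]
        ring

end rows

end Pool.Agent.H16.Simp
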